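import Mathlib

/-!
# Project TZ (MP_0f6f3f_an): `sl(n, 𝕜)` as a real Lie algebra
-/

set_option autoImplicit false

open Matrix

namespace Pool.Agent.Helper42.TZ

attribute [local instance 100] LieRing.ofAssociativeRing

/-- `sl(n, 𝕜)`, the matrices of trace zero over `𝕜 = ℝ` or `ℂ`, as a real Lie algebra. -/
def slR (n : ℕ) (𝕜 : Type) [RCLike 𝕜] : LieSubalgebra ℝ (Matrix (Fin n) (Fin n) 𝕜) where
  carrier := {X | X.trace = 0}
  add_mem' {X Y} hX hY := by
    change (X + Y).trace = 0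
    rw [trace_add, show X.trace = 0 from hX, show Y.trace = 0 from hY, add_zero]
  zero_mem' := trace_zero _ _
  smul_mem' c X hX := by
    change (c • X).trace = 0
    rw [trace_smul, show X.trace = 0 from hX, smul_zero]
  lie_mem' {X Y} _ _ := by
    change (X * Y - Y * X).trace = 0
    rw [trace_sub, trace_mul_comm, sub_self]

theorem mem_slR {n : ℕ} {𝕜 : Type} [RCLike 𝕜] {X : Matrix (Fin n) (Fin n) 𝕜} : X ∈ slR n 𝕜 ↔ X.trace = 0 := Iff.rfl

theorem slR_real (n : ℕ) : slR n ℝ = LieAlgebra.SpecialLinear.sl (Fin n) ℝ := by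
  ext X
  rw [mem_slR]
  exact Iff.rfl

/-- The identity `sl(n, ℝ) = sl(n, ℝ)`. -/
noncomputable def slR_equiv (n : ℕ) : slR n ℝ ≃ₗ⁅ℝ⁆ LieAlgebra.SpecialLinear.sl (Fin n) ℝ :=
  LieEquiv.ofEq _ _ (congrArg _ (slR_real n))

end Pool.Agent.Helper42.TZ
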