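import Pool.Agent.Helper43.TZ.Src
import Pool.Agent.Helper42.TZ.Inst

/-!
# Project TZ (MP_0f6f3f_an), block C4: the opposite direction by an automorphism

`Dir.flip`: transport of `Dir G F par d` by an automorphism `θ` of `G` with `θ F = F` and `par (θ f) = -par f` on `F`: same `S'`, `ι' = θ⁻¹ ∘ ι`, same `Ω`, `κ' = κ ∘ θ`, `fam`, `mult`, `pp` the same. (`κq`: `b` contracts `q` iff `θ b` contracts `θ q`, `par (θ b_n) = -par b_n → ∞`; `maut`: for `σ` take `σ ∘ θ⁻¹`.)
`exists_theta_F`, `exists_theta_H`: `s ↦ (s⁻¹)ᴴ` on `SL(m, 𝕜)` and `SL(m, ℍ)` (`fH m` in `Helper42/TZ/Inst.lean`; on `SLH m` it is `g ↦ (val g⁻¹)ᴴ` in the `2m × 2m` complex matrices: it preserves `g J = J ḡ`; `qM` of the conjugate transpose is the conjugate transpose of `qM`).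
`quot_aut`: an automorphism `θ` of `S`, continuous with its inverse, gives one of `S ⧸ center S`.
-/

set_option autoImplicit false
set_option linter.unusedSectionVars false

open Matrix Topology Filter

namespace Pool.Agent.Helper42.TZ

open Pool.Agent.Helper84.SPQ Pool.Agent.Helper43.TZ
open Pool.Agent.Helper96.HN (SLH val val_mul val_inj det_val val_J continuous_val)

theorem exists_flip {G : Type} [Group G] [TopologicalSpace G] [IsTopologicalGroup G] {F : Subgroup G} {par : G → ℝ} {d : ℕ}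
    (D : Dir G F par d) (θ : G ≃* G) (hθ : Continuous θ) (hθ' : Continuous θ.symm) (hF : ∀ f ∈ F, θ f ∈ F)
    (hp : ∀ f ∈ F, par (θ f) = -par f) : Nonempty (Dir G F (fun g => -par g) d) := by
  refine ⟨{
    S' := D.S'
    iG := D.iG
    iT := D.iT
    iTG := D.iTG
    ι := θ.symm.toMonoidHom.comp D.ι
    ιc := hθ'.comp D.ιc
    cm := ?_
    Ω := D.Ω
    iM := D.iM
    iA := D.iA
    iMS := D.iMS
    κ := fun g => D.κ (θ g)
    κm := ?_
    κs := ?_
    κq := ?_
    maut := ?_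
    fam := D.fam
    famd := D.famd
    mult := D.mult
    pp := D.pp }⟩
  · intro s f hf
    apply θ.injective
    show θ (θ.symm (D.ι s) * f) = θ (f * θ.symm (D.ι s))
    rw [map_mul, map_mul, θ.apply_symm_apply]
    exact D.cm s _ (hF f hf)
  · intro E hE
    have h := D.κm E hE
    have h1 : @Measurable G G (borel G) (borel G) θ := by
      let _ : MeasurableSpace G := borel G
      have : BorelSpace G := ⟨rfl⟩
      exact hθ.measurable
    exact h1 h
  · intro s g
    show D.κ (θ (θ.symm (D.ι s) * g)) = s • D.κ (θ g)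
    rw [map_mul, θ.apply_symm_apply]
    exact D.κs s (θ g)
  · intro b l hl hb ht q hq g
    show D.κ (θ (q * g)) = D.κ (θ g)
    rw [map_mul]
    refine D.κq (fun n => θ (b n)) l (fun n => hF _ (hb n)) ?_ (θ q) ?_ (θ g)
    · refine ht.congr fun n => ?_
      exact (hp _ (hb n)).symm
    · have h1 : Tendsto (fun n => θ (b n * q * (b n)⁻¹)) l (𝓝 (θ 1)) := (hθ.tendsto 1).comp hq
      rw [map_one] at h1
      refine h1.congr fun n => ?_
      rw [map_mul, map_mul, map_inv]
  · intro b l hl hb ht K _ _ σ ξ hξ hq g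
    have h := D.maut (fun n => θ (b n)) l (fun n => hF _ (hb n)) ?_ (σ.comp θ.symm.toMonoidHom) ξ ?_ ?_ (θ g)
    · have e : (σ.comp θ.symm.toMonoidHom) (θ g) = σ g := by
        show σ (θ.symm (θ g)) = σ g
        rw [θ.symm_apply_apply]
      rw [e] at h
      exact h
    · refine ht.congr fun n => ?_
      exact (hp _ (hb n)).symm
    · have h1 : Tendsto θ.symm (𝓝 1) (𝓝 1) := by
        have h2 := hθ'.tendsto 1
        rw [map_one] at h2
        exact h2
      exact (Pool.Agent.Helper96.FR.mem_contVec.1 hξ).comp h1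
    · intro q hq'
      show σ (θ.symm q) ξ = ξ
      refine hq (θ.symm q) ?_
      have h1 : Tendsto (fun n => θ.symm (θ (b n) * q * (θ (b n))⁻¹)) l (𝓝 (θ.symm 1)) := (hθ'.tendsto 1).comp hq'
      rw [map_one] at h1
      refine h1.congr fun n => ?_
      rw [map_mul, map_mul, map_inv, θ.symm_apply_apply]

/-- the automorphism `s ↦ c s⁻¹` of an involutive antiautomorphism `c` -/
theorem mk_theta {S : Type} [Group S] [TopologicalSpace S] [IsTopologicalGroup S] (c : S → S) (hc : Continuous c)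
    (hm : ∀ s t, c (s * t) = c t * c s) (hi : ∀ s, c (c s) = s) :
    ∃ θ : S ≃* S, Continuous θ ∧ Continuous θ.symm ∧ ∀ s, θ s = c s⁻¹ := by
  have h1 : c 1 = 1 := by
    have h := hm 1 1
    rw [mul_one] at h
    exact mul_eq_left.1 h.symm
  have h2 : ∀ s, c s⁻¹ = (c s)⁻¹ := fun s => by
    apply eq_inv_of_mul_eq_one_left
    rw [← hm, mul_inv_cancel, h1]
  have h3 : ∀ s, c (c s⁻¹)⁻¹ = s := fun s => by
    rw [h2, hi, inv_inv]
  refine ⟨{ toFun := fun s => c s⁻¹, invFun := fun s => c s⁻¹, left_inv := h3, right_inv := h3, map_mul' := ?_ }, ?_, ?_, ?_⟩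
  · intro s t
    rw [_root_.mul_inv_rev, hm]
  · exact hc.comp continuous_inv
  · exact hc.comp continuous_inv
  · intro s
    rfl

theorem exists_theta_F (𝕜 : Type) [RCLike 𝕜] (m : ℕ) : ∃ θ : SpecialLinearGroup (Fin m) 𝕜 ≃* SpecialLinearGroup (Fin m) 𝕜,
    Continuous θ ∧ Continuous θ.symm ∧ ∀ s, (θ s).1 = (s⁻¹).1ᴴ := by
  have hd : ∀ s : SpecialLinearGroup (Fin m) 𝕜, (s.1ᴴ).det = 1 := fun s => by
    rw [det_conjTranspose, s.2, star_one]
  have hc : Continuous (fun s : SpecialLinearGroup (Fin m) 𝕜 => (⟨s.1ᴴ, hd s⟩ : SpecialLinearGroup (Fin m) 𝕜)) := by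
    refine continuous_induced_rng.2 ?_
    exact Continuous.matrix_conjTranspose continuous_induced_dom
  obtain ⟨θ, h1, h2, h3⟩ := mk_theta (fun s : SpecialLinearGroup (Fin m) 𝕜 => (⟨s.1ᴴ, hd s⟩ : SpecialLinearGroup (Fin m) 𝕜))
    hc
    (fun s t => Subtype.ext (by
      show (s.1 * t.1)ᴴ = t.1ᴴ * s.1ᴴ
      exact conjTranspose_mul _ _))
    (fun s => Subtype.ext (by
      show (s.1ᴴ)ᴴ = s.1
      exact conjTranspose_conjTranspose _))
  refine ⟨θ, h1, h2, fun s => ?_⟩
  rw [h3]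

theorem exists_theta_H (m : ℕ) : ∃ θ : SLH m ≃* SLH m, Continuous θ ∧ Continuous θ.symm ∧
    ∀ s, fH m (θ s) = (fH m s⁻¹)ᴴ := by
  have hd : ∀ s : SLH m, ((val s)ᴴ).det = 1 := fun s => by
    rw [det_conjTranspose, det_val, star_one]
  have hJ : (J (Fin m) ℂ)ᴴ = -J (Fin m) ℂ := by
    rw [J, fromBlocks_conjTranspose]
    simp [fromBlocks_neg]
  have hJJ : J (Fin m) ℂ * J (Fin m) ℂ = -1 := J_squared (Fin m) ℂ
  have hJm : ∀ s : SLH m, (⟨(val s)ᴴ, hd s⟩ : SpecialLinearGroup (Fin m ⊕ Fin m) ℂ) ∈ SLH m := fun s => by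
    refine Pool.Agent.Helper96.HN.mem_SLH.2 ?_
    show (val s)ᴴ * J (Fin m) ℂ = J (Fin m) ℂ * ((val s)ᴴ).map (starRingEnd ℂ)
    have h1 := congrArg conjTranspose (val_J s)
    have h2 : ((val s)ᴴ).map (starRingEnd ℂ) = ((val s).map (starRingEnd ℂ))ᴴ := by
      ext i j
      simp
    rw [conjTranspose_mul, conjTranspose_mul, hJ, ← h2, Matrix.neg_mul, Matrix.mul_neg, neg_inj] at h1
    -- `J gᴴ = gᵀ J`
    have h3 := congrArg (fun A => J (Fin m) ℂ * A * J (Fin m) ℂ) h1
    rw [← Matrix.mul_assoc, hJJ, Matrix.neg_mul, Matrix.one_mul, Matrix.neg_mul, Matrix.mul_assoc, Matrix.mul_assoc, hJJ,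
      Matrix.mul_neg, Matrix.mul_one, Matrix.mul_neg, neg_inj] at h3
    exact h3
  have hc : Continuous (fun s : SLH m => (⟨⟨(val s)ᴴ, hd s⟩, hJm s⟩ : SLH m)) := by
    refine continuous_induced_rng.2 (continuous_induced_rng.2 ?_)
    exact Continuous.matrix_conjTranspose continuous_val
  obtain ⟨θ, h1, h2, h3⟩ := mk_theta (fun s : SLH m => (⟨⟨(val s)ᴴ, hd s⟩, hJm s⟩ : SLH m)) hc
    (fun s t => val_inj (by
      show (val s * val t)ᴴ = (val t)ᴴ * (val s)ᴴ
      exact conjTranspose_mul _ _))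
    (fun s => val_inj (by
      show ((val s)ᴴ)ᴴ = val s
      exact conjTranspose_conjTranspose _))
  refine ⟨θ, h1, h2, fun s => ?_⟩
  rw [h3]
  refine Matrix.ext fun i j => ?_
  rw [conjTranspose_apply, fH_apply, fH_apply, Pool.Agent.Helper42.HC.qi_star]
  show Pool.Agent.Helper42.HC.qi (star (val s⁻¹ (Sum.inl j) (Sum.inl i))) (star (val s⁻¹ (Sum.inl j) (Sum.inr i))) = _
  rw [(blocksG s⁻¹ j i).1, star_neg]
  congr 2
  exact star_star _

theorem quot_aut {S : Type} [Group S] [TopologicalSpace S] [IsTopologicalGroup S] (θ : S ≃* S) (hθ : Continuous θ)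
    (hθ' : Continuous θ.symm) : ∃ θ' : (S ⧸ Subgroup.center S) ≃* (S ⧸ Subgroup.center S), Continuous θ' ∧ Continuous θ'.symm ∧
      ∀ s : S, θ' (s : S ⧸ Subgroup.center S) = ((θ s : S) : S ⧸ Subgroup.center S) := by
  have hmap : ∀ (τ : S ≃* S), (Subgroup.center S).map τ.toMonoidHom ≤ Subgroup.center S := by
    intro τ x hx
    obtain ⟨z, hz, rfl⟩ := Subgroup.mem_map.1 hx
    rw [Subgroup.mem_center_iff]
    intro g
    show g * τ z = τ z * g
    have h := (Subgroup.mem_center_iff.1 hz) (τ.symm g)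
    have h' := congrArg τ h
    rw [map_mul, map_mul, τ.apply_symm_apply] at h'
    exact h'
  have he : (Subgroup.center S).map θ.toMonoidHom = Subgroup.center S := by
    refine le_antisymm (hmap θ) fun x hx => ?_
    exact Subgroup.mem_map.2 ⟨θ.symm x, hmap θ.symm (Subgroup.mem_map.2 ⟨x, hx, rfl⟩), θ.apply_symm_apply x⟩
  refine ⟨QuotientGroup.congr (Subgroup.center S) (Subgroup.center S) θ he, ?_, ?_, ?_⟩
  · refine (QuotientGroup.isQuotientMap_mk (Subgroup.center S)).continuous_iff.2 ?_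
    exact QuotientGroup.continuous_mk.comp hθ
  · refine (QuotientGroup.isQuotientMap_mk (Subgroup.center S)).continuous_iff.2 ?_
    exact QuotientGroup.continuous_mk.comp hθ'
  · intro s
    rfl

end Pool.Agent.Helper42.TZ
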