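import Pool.Agent.Helper42.TZ.C.Elim
import Pool.Agent.Helper42.TZ.Inst

/-!
# Project TZ (MP_0f6f3f_an), block C3: `SL(m, K)`, `SL(m, ℍ)` are generated by transvections

`sgF K m`, `sgH m` (`Helper42/TZ/Inst.lean`), `Q.Eg`, `SG.elim` (`C/Elim.lean`, cite it).
`gen_F`: by `SG.elim` `e * s` is diagonal with entries `1, ..., 1, d` and determinant `1`, so `d = 1`, `e * s = 1`.
`norm_one_of_diag`: `φ s = diag(1, ..., 1, d)` implies `|d| = 1`: `φ(s^n) = diag(1, ..., 1, d^n)`; if `|d| < 1` this tends to the noninvertible matrix `diag(1, ..., 1, 0)`, which would be in the closed set `range φ`, but all `φ g` are invertible (`SG.mul_inv`); if `|d| > 1` use `s⁻¹`.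
`comm_unit`: every unit quaternion `d` is a commutator `a b a⁻¹ b⁻¹`: `d ≠ -1`: `c = (1 + d) / |1 + d|`, `c² = d`; `d = -1`: `c = i`; `n ≠ 0` a purely imaginary quaternion orthogonal to `Im c` (`n = -y i + x j` for `Im c = x i + y j + z k` and `(x, y) ≠ 0`, otherwise `n = i`): `n c⁻¹ n⁻¹ = c` (that is `n * star c = c * n`), so `c n c⁻¹ n⁻¹ = c² = d`.
`diag_mem`: for `a ≠ 0` there is `h ∈ Q.Eg` with `φ h = diag(1, ..., 1, a⁻¹, a)` (last two coordinates): `h = w(a) w(-1)`, `w(a) = T(e_p, a e_q) T(e_q, -a⁻¹ e_p) T(e_p, a e_q)` (or any other product). `h(a) h(b) h((b a)⁻¹)` has `φ = diag(1, ..., 1, a b a⁻¹ b⁻¹)`. So `gen_H`.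
-/

set_option autoImplicit false
set_option linter.unusedSectionVars false

open Matrix Topology

namespace Pool.Agent.Helper42.TZ

open Pool.Agent.Helper84.SPQ
open Pool.Agent.Helper96.HN (SLH)

section general

variable {K : Type} [NormedDivisionRing K] [NormedAlgebra ℝ K] [FiniteDimensional ℝ K] {m : ℕ}
variable {S : Type} [Group S] [TopologicalSpace S]

/-- elementary transvections -/
private theorem el_c3 (Q : SG K m S) {p q : Fin m} (hpq : p ≠ q) (c : K) :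
    ∃ g ∈ Q.Eg, ∀ x : Fin m → K, (Q.φ g *ᵥ x) p = x p + c * x q ∧ ∀ i, i ≠ p → (Q.φ g *ᵥ x) i = x i := by
  have h0 : (c • (Pi.single q 1 : Fin m → K)) ⬝ᵥ (Pi.single p 1 : Fin m → K) = 0 := by
    rw [smul_dotProduct, single_one_dotProduct, Pi.single_eq_of_ne hpq.symm, smul_zero]
  obtain ⟨g, hg⟩ := Q.tv (Pi.single p 1) (c • Pi.single q 1) h0
  refine ⟨g, Q.tv_mem h0 hg, fun x => ?_⟩
  have h1 : Q.φ g *ᵥ x = x + rs (Pi.single p 1) (c * x q) := by
    rw [hg, tv_mulVec, smul_dotProduct, single_one_dotProduct, smul_eq_mul]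
  rw [h1]
  constructor
  · show x p + (Pi.single p 1 : Fin m → K) p * (c * x q) = _
    rw [Pi.single_eq_same, one_mul]
  · intro i hi
    show x i + (Pi.single p 1 : Fin m → K) i * (c * x q) = _
    rw [Pi.single_eq_of_ne hi, zero_mul, add_zero]

/-- the Weyl element -/
private theorem wt_c3 (Q : SG K m S) {p q : Fin m} (hpq : p ≠ q) {c : K} (hc : c ≠ 0) :
    ∃ g ∈ Q.Eg, ∀ x : Fin m → K, (Q.φ g *ᵥ x) p = c * x q ∧ (Q.φ g *ᵥ x) q = -(c⁻¹ * x p) ∧
      ∀ i, i ≠ p → i ≠ q → (Q.φ g *ᵥ x) i = x i := by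
  obtain ⟨g, hg, hgx⟩ := el_c3 Q hpq c
  obtain ⟨k, hk, hkx⟩ := el_c3 Q hpq.symm (-c⁻¹)
  refine ⟨g * (k * g), Q.Eg.mul_mem hg (Q.Eg.mul_mem hk hg), fun x => ?_⟩
  have e : Q.φ (g * (k * g)) *ᵥ x = Q.φ g *ᵥ (Q.φ k *ᵥ (Q.φ g *ᵥ x)) := by
    rw [map_mul, map_mul, Matrix.mulVec_mulVec, Matrix.mulVec_mulVec, Matrix.mul_assoc]
  rw [e]
  have a1 := (hgx x).1
  have a2 := (hgx x).2 q hpq.symm
  have b1 := (hkx (Q.φ g *ᵥ x)).1
  have b2 := (hkx (Q.φ g *ᵥ x)).2 p hpq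
  have hq : (Q.φ k *ᵥ (Q.φ g *ᵥ x)) q = -(c⁻¹ * x p) := by
    rw [b1, a1, a2, mul_add, ← mul_assoc (-c⁻¹) c, neg_mul, neg_mul, inv_mul_cancel₀ hc, neg_mul, one_mul]
    abel
  refine ⟨?_, ?_, ?_⟩
  · rw [(hgx _).1, hq, b2, a1, mul_neg, ← mul_assoc, mul_inv_cancel₀ hc, one_mul]
    abel
  · rw [(hgx _).2 q hpq.symm, hq]
  · intro i hip hiq
    rw [(hgx _).2 i hip, (hkx _).2 i hiq, (hgx _).2 i hip]

private theorem dg_c3 (Q : SG K m S) {p q : Fin m} (hpq : p ≠ q) {a : K} (ha : a ≠ 0) :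
    ∃ g ∈ Q.Eg, ∀ x : Fin m → K, (Q.φ g *ᵥ x) p = a⁻¹ * x p ∧ (Q.φ g *ᵥ x) q = a * x q ∧
      ∀ i, i ≠ p → i ≠ q → (Q.φ g *ᵥ x) i = x i := by
  obtain ⟨g, hg, hgx⟩ := wt_c3 Q hpq (inv_ne_zero ha)
  obtain ⟨k, hk, hkx⟩ := wt_c3 Q hpq (c := (-1 : K)) (neg_ne_zero.2 one_ne_zero)
  refine ⟨g * k, Q.Eg.mul_mem hg hk, fun x => ?_⟩
  rw [map_mul, ← Matrix.mulVec_mulVec]
  obtain ⟨g1, g2, g3⟩ := hgx (Q.φ k *ᵥ x)
  obtain ⟨k1, k2, k3⟩ := hkx x
  refine ⟨?_, ?_, ?_⟩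
  · rw [g1, k2, inv_neg, inv_one, neg_mul, one_mul, neg_neg]
  · rw [g2, k1, inv_inv, neg_mul, one_mul, mul_neg, neg_neg]
  · intro i hip hiq
    rw [g3 i hip hiq, k3 i hip hiq]

private theorem comm_c3 (Q : SG K m S) {p q : Fin m} (hpq : p ≠ q) {a b : K} (ha : a ≠ 0) (hb : b ≠ 0) :
    ∃ g ∈ Q.Eg, Q.φ g = Matrix.diagonal fun i => if i = q then a * b * a⁻¹ * b⁻¹ else 1 := by
  obtain ⟨g, hg, hgx⟩ := dg_c3 Q hpq ha
  obtain ⟨k, hk, hkx⟩ := dg_c3 Q hpq hb
  obtain ⟨l, hl, hlx⟩ := dg_c3 Q hpq (inv_ne_zero (mul_ne_zero hb ha))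
  refine ⟨g * (k * l), Q.Eg.mul_mem hg (Q.Eg.mul_mem hk hl), ?_⟩
  have key : ∀ x : Fin m → K, ∀ i, (Q.φ (g * (k * l)) *ᵥ x) i = (if i = q then a * b * a⁻¹ * b⁻¹ else 1) * x i := by
    intro x i
    have e : Q.φ (g * (k * l)) *ᵥ x = Q.φ g *ᵥ (Q.φ k *ᵥ (Q.φ l *ᵥ x)) := by
      rw [map_mul, map_mul, Matrix.mulVec_mulVec, Matrix.mulVec_mulVec, Matrix.mul_assoc]
    rw [e]
    obtain ⟨g1, g2, g3⟩ := hgx (Q.φ k *ᵥ (Q.φ l *ᵥ x))
    obtain ⟨k1, k2, k3⟩ := hkx (Q.φ l *ᵥ x)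
    obtain ⟨l1, l2, l3⟩ := hlx x
    by_cases hiq : i = q
    · subst hiq
      rw [if_pos rfl, g2, k2, l2, _root_.mul_inv_rev]
      simp only [mul_assoc]
    · rw [if_neg hiq, one_mul]
      by_cases hip : i = p
      · subst hip
        rw [g1, k1, l1, inv_inv, ← mul_assoc b⁻¹, ← mul_assoc b⁻¹, inv_mul_cancel₀ hb, one_mul, ← mul_assoc,
          inv_mul_cancel₀ ha, one_mul]
      · rw [g3 i hip hiq, k3 i hip hiq, l3 i hip hiq]
  refine Matrix.ext fun i j => ?_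
  have h1 : Q.φ (g * (k * l)) i j = (Q.φ (g * (k * l)) *ᵥ (Pi.single j 1 : Fin m → K)) i := by
    rw [Matrix.mulVec_single_one]
    rfl
  rw [h1, key]
  by_cases hij : i = j
  · rw [hij, Pi.single_eq_same, mul_one, Matrix.diagonal_apply_eq]
  · rw [Pi.single_eq_of_ne hij, mul_zero, Matrix.diagonal_apply_ne _ hij]

private theorem not_lt_c3 (Q : SG K m S) {q : Fin m} {s : S} {d : K}
    (h : Q.φ s = Matrix.diagonal fun i => if i = q then d else 1) : ¬ ‖d‖ < 1 := by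
  intro hd
  have h1 : ∀ n : ℕ, Q.φ (s ^ n) = Matrix.diagonal fun i => (if i = q then d else 1) ^ n := by
    intro n
    rw [map_pow, h, Matrix.diagonal_pow]
    rfl
  have h2 : Filter.Tendsto (fun n : ℕ => Q.φ (s ^ n)) Filter.atTop
      (nhds (Matrix.diagonal fun i => if i = q then (0 : K) else 1)) := by
    have h3 : Filter.Tendsto (fun n : ℕ => fun i : Fin m => (if i = q then d else 1) ^ n) Filter.atTop
        (nhds fun i => if i = q then (0 : K) else 1) := by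
      refine tendsto_pi_nhds.2 fun i => ?_
      by_cases hi : i = q
      · simp only [if_pos hi]
        exact tendsto_pow_atTop_nhds_zero_of_norm_lt_one hd
      · simp only [if_neg hi, one_pow]
        exact tendsto_const_nhds
    have h4 : Continuous fun f : Fin m → K => Matrix.diagonal f := Continuous.matrix_diagonal continuous_id
    have h5 := (h4.tendsto _).comp h3
    refine h5.congr fun n => ?_
    exact (h1 n).symm
  have h6 : (Matrix.diagonal fun i => if i = q then (0 : K) else 1) ∈ Set.range Q.φ :=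
    Q.emb.isClosed_range.mem_of_tendsto h2 (Filter.Eventually.of_forall fun n => ⟨_, rfl⟩)
  obtain ⟨g, hg⟩ := h6
  have h7 := congrFun (congrFun (Q.mul_inv g) q) q
  rw [hg, Matrix.diagonal_mul, if_pos rfl, zero_mul, Matrix.one_apply_eq] at h7
  exact zero_ne_one h7

private theorem norm_c3 (Q : SG K m S) {q : Fin m} {s : S} {d : K}
    (h : Q.φ s = Matrix.diagonal fun i => if i = q then d else 1) : ‖d‖ = 1 := by
  have hd0 : d ≠ 0 := by
    rintro rfl
    exact not_lt_c3 Q h (by rw [norm_zero]; exact one_pos)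
  have h1 : Q.φ s⁻¹ = Matrix.diagonal fun i => if i = q then d⁻¹ else 1 := by
    have h2 : Q.φ s * (Matrix.diagonal fun i => if i = q then d⁻¹ else 1) = 1 := by
      rw [h, Matrix.diagonal_mul_diagonal, ← Matrix.diagonal_one]
      congr 1
      funext i
      by_cases hi : i = q
      · rw [if_pos hi, if_pos hi, mul_inv_cancel₀ hd0]
      · rw [if_neg hi, if_neg hi, one_mul]
    calc Q.φ s⁻¹ = Q.φ s⁻¹ * (Q.φ s * (Matrix.diagonal fun i => if i = q then d⁻¹ else 1)) := by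
          rw [h2, Matrix.mul_one]
      _ = _ := by rw [← Matrix.mul_assoc, Q.inv_mul, Matrix.one_mul]
  have h3 := not_lt_c3 Q h
  have h4 := not_lt_c3 Q h1
  rw [norm_inv] at h4
  have h5 : 0 < ‖d‖ := norm_pos_iff.2 hd0
  refine le_antisymm ?_ (not_lt.1 h3)
  by_contra hc
  exact h4 (inv_lt_one_of_one_lt₀ (not_le.1 hc))

end general

private theorem exq_c3 (a b c d : ℝ) : ∃ u : Hq, u.re = a ∧ u.imI = b ∧ u.imJ = c ∧ u.imK = d :=
  ⟨⟨a, b, c, d⟩, rfl, rfl, rfl, rfl⟩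

private theorem comm_unit_c3 (d : Hq) (hd : ‖d‖ = 1) : ∃ a b : Hq, a ≠ 0 ∧ b ≠ 0 ∧ a * b * a⁻¹ * b⁻¹ = d := by
  have hfin : ∀ a b : Hq, a ≠ 0 → b ≠ 0 → a * b = d * b * a → ∃ a b : Hq, a ≠ 0 ∧ b ≠ 0 ∧ a * b * a⁻¹ * b⁻¹ = d := by
    intro a b ha hb h
    refine ⟨a, b, ha, hb, ?_⟩
    rw [h, mul_inv_cancel_right₀ ha, mul_inv_cancel_right₀ hb]
  obtain ⟨u, u0, u1, u2, u3⟩ := exq_c3 0 1 0 0
  obtain ⟨v, v0, v1, v2, v3⟩ := exq_c3 0 0 1 0
  have hu : u ≠ 0 := by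
    rintro rfl
    exact zero_ne_one u1
  have hv : v ≠ 0 := by
    rintro rfl
    exact zero_ne_one v2
  by_cases h1 : d = -1
  · refine hfin u v hu hv ?_
    rw [h1, neg_mul, one_mul, neg_mul]
    refine Quaternion.ext _ _ ?_ ?_ ?_ ?_
    · rw [Quaternion.re_neg, Quaternion.re_mul, Quaternion.re_mul, u0, u1, u2, u3, v0, v1, v2, v3]
      norm_num
    · rw [Quaternion.imI_neg, Quaternion.imI_mul, Quaternion.imI_mul, u0, u1, u2, u3, v0, v1, v2, v3]
      norm_num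
    · rw [Quaternion.imJ_neg, Quaternion.imJ_mul, Quaternion.imJ_mul, u0, u1, u2, u3, v0, v1, v2, v3]
      norm_num
    · rw [Quaternion.imK_neg, Quaternion.imK_mul, Quaternion.imK_mul, u0, u1, u2, u3, v0, v1, v2, v3]
      norm_num
  · have ha : (1 + d : Hq) ≠ 0 := by
      intro h
      apply h1
      rw [← add_left_cancel_iff (a := (1 : Hq)), h]
      abel
    have hdd : d * star d = 1 := by
      rw [Quaternion.self_mul_star, Quaternion.normSq_eq_norm_mul_self, hd]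
      norm_num
    have hsa : d * star (1 + d) = 1 + d := by
      rw [star_add, star_one, mul_add, mul_one, hdd]
      abel
    obtain ⟨n, hn0, hn⟩ : ∃ n : Hq, n ≠ 0 ∧ n * (1 + d) = star (1 + d) * n := by
      obtain ⟨a, haa⟩ : ∃ a, a = 1 + d := ⟨_, rfl⟩
      rw [← haa]
      have key : ∀ n : Hq, n.re = 0 → n.imI * a.imI + n.imJ * a.imJ + n.imK * a.imK = 0 → n * a = star a * n := by
        intro n hn0 hn
        refine Quaternion.ext _ _ ?_ ?_ ?_ ?_
        · rw [Quaternion.re_mul, Quaternion.re_mul, Quaternion.re_star, Quaternion.imI_star, Quaternion.imJ_star,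
            Quaternion.imK_star, hn0]
          linarith
        · rw [Quaternion.imI_mul, Quaternion.imI_mul, Quaternion.re_star, Quaternion.imI_star, Quaternion.imJ_star,
            Quaternion.imK_star, hn0]
          ring
        · rw [Quaternion.imJ_mul, Quaternion.imJ_mul, Quaternion.re_star, Quaternion.imI_star, Quaternion.imJ_star,
            Quaternion.imK_star, hn0]
          ring
        · rw [Quaternion.imK_mul, Quaternion.imK_mul, Quaternion.re_star, Quaternion.imI_star, Quaternion.imJ_star,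
            Quaternion.imK_star, hn0]
          ring
      by_cases hxy : a.imI = 0 ∧ a.imJ = 0
      · exact ⟨u, hu, key u u0 (by rw [u1, u2, u3, hxy.1]; ring)⟩
      · obtain ⟨n, n0, n1, n2, n3⟩ := exq_c3 0 (-a.imJ) a.imI 0
        refine ⟨n, ?_, key n n0 (by rw [n1, n2, n3]; ring)⟩
        rintro rfl
        apply hxy
        constructor
        · rw [← n2]
          rfl
        · rw [← neg_neg a.imJ, ← n1, neg_eq_zero]
          rfl
    refine hfin (1 + d) n ha hn0 ?_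
    rw [mul_assoc, hn, ← mul_assoc, hsa]

theorem gen_F (K : Type) [NormedField K] [NormedAlgebra ℝ K] [FiniteDimensional ℝ K] (m : ℕ) : (sgF K (m + 1)).Eg = ⊤ := by
  refine eq_top_iff.2 fun s _ => ?_
  obtain ⟨e, he, d, hd⟩ := (sgF K (m + 1)).elim s
  have h1 : ((sgF K (m + 1)).φ (e * s)).det = 1 := (e * s).2
  rw [hd, Matrix.det_diagonal, Finset.prod_ite_eq' Finset.univ (Fin.last m) fun _ => d, if_pos (Finset.mem_univ _)] at h1
  have h2 : e * s = 1 := by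
    apply (sgF K (m + 1)).inj
    rw [hd, h1, map_one]
    simp
  have h3 : s = e⁻¹ := (inv_eq_of_mul_eq_one_right h2).symm
  rw [h3]
  exact (sgF K (m + 1)).Eg.inv_mem he

theorem gen_H {m : ℕ} (hm : 1 ≤ m) : (sgH (m + 1)).Eg = ⊤ := by
  refine eq_top_iff.2 fun s _ => ?_
  obtain ⟨e, he, d, hd⟩ := (sgH (m + 1)).elim s
  obtain ⟨a, b, ha, hb, hab⟩ := comm_unit_c3 d (norm_c3 (sgH (m + 1)) hd)
  have hpq : (⟨0, by omega⟩ : Fin (m + 1)) ≠ Fin.last m := by
    intro h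
    have h1 := congrArg Fin.val h
    rw [Fin.val_last] at h1
    simp only at h1
    omega
  obtain ⟨g, hg, hgφ⟩ := comm_c3 (sgH (m + 1)) hpq ha hb
  rw [hab] at hgφ
  have h2 : e * s = g := (sgH (m + 1)).inj (hd.trans hgφ.symm)
  have h3 : s = e⁻¹ * g := by rw [← h2, inv_mul_cancel_left]
  rw [h3]
  exact (sgH (m + 1)).Eg.mul_mem ((sgH (m + 1)).Eg.inv_mem he) hg

end Pool.Agent.Helper42.TZ
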