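import Pool.Agent.Helper43.TA.Defs
import Pool.Agent.Helper42.TZ.C.GenH

/-!
# Project TZ (MP_0f6f3f_an), block C1: `TwoF` for the images of `GL(m, ℝ)`

`f : GL(m, ℝ) → G` continuous, proper, kernel in `{1, -1}` (as in `Helper96/FR/Rge1.lean`, `rankGE_of_GL`, whose proof this follows). `F` a subgroup of `G` of images of scalar matrices. Then `TwoF (m - 1) F`.
PROOF. For `i : Fin (m - 1)` let `d_i k = 2^(m - 1 - i)` for `k ≤ i`, `2^(-(i + 1))` for `k > i` (units of `ℝ`, product `1`), `a i = f (dgU d_i)`, `u i = f (jb e_i (uE 4))`, `w i = f (jb e_i (lE 4))`, `e_i` from `exists_e` for the pair `i, i + 1`. Scalars commute with everything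
(`dgU (fun _ => t) * g = g * dgU (fun _ => t)` for all `g`). For `j ≠ i` `d_i j = d_i (j + 1)`, so `a i` commutes with `u j`, `w j` (`dgU_uE`, `dgU_lE`). `(a i ^ n)⁻¹ * u i * a i ^ n = f (jb e_i (uE (4 / 2 ^ (m n))))`, the same for `w i`. `discrete_range`, `nonAm_range`, `range_fz`.
`mt`: `a j` is in the group generated by the elements contracted by `a 0`: let `ψ : SL(m, ℝ) → G`, `ψ s = f (s as element of GL)`, `T ⊆ SL(m, ℝ)` the set of the elements `1 + vecMulVec (e_0) g` (`g_0 = 0`) and `1 + vecMulVec v (e_0)` (`v_0 = 0`); `ψ T` is contracted by `a 0` or `(a 0)⁻¹`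
(continuity of `f`), commutes with `F`, and `T` generates `SL(m, ℝ)`: cite `SG.Eg_le` (C/Tr.lean, with `Q = sgF ℝ m`, `p = 0`, `N` = preimage under `ψ` of `Subgroup.closure (Ctr F (a 0))`) and `gen_F ℝ (m - 1)` (C/GenH.lean, block C3; for `m ≥ 1`). `dgU d_j` is the image of an element of `SL(m, ℝ)` (determinant = product of the `d_j k` = 1).
-/

set_option autoImplicit false
set_option linter.unusedSectionVars false

open Matrix Topology Filter

namespace Pool.Agent.Helper42.TZ

open Pool.Agent.Helper96.FR Pool.Agent.Helper43.TA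

/-- the diagonal elements -/
noncomputable def dT (m i : ℕ) : Fin m → ℝˣ :=
  fun k => if (k : ℕ) ≤ i then two' ^ (m - 1 - i) else (two' ^ (i + 1))⁻¹

theorem two'_coe : ((two' : ℝˣ) : ℝ) = 2 := rfl

theorem dT_le {m i : ℕ} {k : Fin m} (h : (k : ℕ) ≤ i) : dT m i k = two' ^ (m - 1 - i) := if_pos h

theorem dT_gt {m i : ℕ} {k : Fin m} (h : i < (k : ℕ)) : dT m i k = (two' ^ (i + 1))⁻¹ := if_neg (not_le.2 h)

/-- the quotient of the two values -/
theorem dT_quot {m i : ℕ} (hi : i + 1 < m) {k l : Fin m} (hk : (k : ℕ) ≤ i) (hl : i < (l : ℕ)) :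
    dT m i k = two' ^ m * dT m i l := by
  rw [dT_le hk, dT_gt hl, eq_mul_inv_iff_mul_eq, ← pow_add]
  congr 1
  omega

theorem prod_dT {m i : ℕ} (hi : i + 1 < m) : ∏ k, ((dT m i k : ℝˣ) : ℝ) = 1 := by
  have h1 : ∏ k : Fin m, dT m i k =
      ∏ k ∈ Finset.range m, (if k ≤ i then two' ^ (m - 1 - i) else (two' ^ (i + 1))⁻¹ : ℝˣ) :=
    Fin.prod_univ_eq_prod_range (fun k => (if k ≤ i then two' ^ (m - 1 - i) else (two' ^ (i + 1))⁻¹ : ℝˣ)) m
  have h2 : ∏ k : Fin m, dT m i k = 1 := by
    rw [h1, ← Finset.prod_range_mul_prod_Ico _ hi.le]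
    have h3 : ∏ k ∈ Finset.range (i + 1), (if k ≤ i then two' ^ (m - 1 - i) else (two' ^ (i + 1))⁻¹ : ℝˣ) =
        ∏ k ∈ Finset.range (i + 1), (two' ^ (m - 1 - i) : ℝˣ) :=
      Finset.prod_congr rfl fun k hk => if_pos (Nat.lt_succ_iff.1 (Finset.mem_range.1 hk))
    have h4 : ∏ k ∈ Finset.Ico (i + 1) m, (if k ≤ i then two' ^ (m - 1 - i) else (two' ^ (i + 1))⁻¹ : ℝˣ) =
        ∏ k ∈ Finset.Ico (i + 1) m, ((two' ^ (i + 1))⁻¹ : ℝˣ) :=
      Finset.prod_congr rfl fun k hk => if_neg (by
        have := (Finset.mem_Ico.1 hk).1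
        omega)
    rw [h3, h4, Finset.prod_const, Finset.prod_const, Finset.card_range, Nat.card_Ico, inv_pow, ← pow_mul, ← pow_mul,
      mul_inv_eq_one]
    congr 1
    rw [mul_comm]
    congr 1
    omega
  have h5 := congrArg (fun x : ℝˣ => (x : ℝ)) h2
  simpa only [Units.coe_prod, Units.val_one] using h5

/-- scalars are central -/
theorem scalar_comm {m : ℕ} (t : ℝˣ) (g : GL (Fin m) ℝ) : dgU (fun _ => t) * g = g * dgU (fun _ => t) := by
  apply Units.ext
  show (diagonal fun _ => (t : ℝ)) * (g : Matrix (Fin m) (Fin m) ℝ) = (g : Matrix (Fin m) (Fin m) ℝ) * diagonal fun _ => (t : ℝ)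
  ext x y
  rw [diagonal_mul, mul_diagonal, mul_comm]

theorem toGL_cont {m : ℕ} : Continuous fun s : SpecialLinearGroup (Fin m) ℝ => (SpecialLinearGroup.toGL s : GL (Fin m) ℝ) := by
  rw [Units.continuous_iff]
  constructor
  · exact continuous_subtype_val
  · have h : Continuous fun A : SpecialLinearGroup (Fin m) ℝ => (A⁻¹ : SpecialLinearGroup (Fin m) ℝ) :=
      continuous_inv
    exact continuous_subtype_val.comp h

theorem tend_pow {m : ℕ} (hm : 1 ≤ m) (c : ℝ) : Tendsto (fun n : ℕ => c / (2 ^ m) ^ n) atTop (𝓝 0) := by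
  have h1 : Tendsto (fun n : ℕ => c * ((2 ^ m)⁻¹ : ℝ) ^ n) atTop (𝓝 (c * 0)) :=
    (tendsto_pow_atTop_nhds_zero_of_lt_one (by positivity)
      (inv_lt_one_of_one_lt₀ (one_lt_pow₀ one_lt_two (by omega)))).const_mul c
  rw [mul_zero] at h1
  refine h1.congr fun n => ?_
  rw [inv_pow, div_eq_mul_inv]

theorem twoF_of_GL {m : ℕ} {G : Type} [Group G] [TopologicalSpace G] [IsTopologicalGroup G]
    [LocallyCompactSpace G] [T2Space G] (f : GL (Fin m) ℝ →* G) (hf : Continuous f)
    (hp : Tendsto f (cocompact _) (cocompact G))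
    (hk : ∀ g, f g = 1 → (g : Matrix (Fin m) (Fin m) ℝ) = 1 ∨ (g : Matrix (Fin m) (Fin m) ℝ) = -1)
    (F : Subgroup G) (hF : ∀ x ∈ F, ∃ t : ℝˣ, x = f (dgU fun _ => t)) : TwoF (m - 1) F := by
  have hf1 : Tendsto f (𝓝 1) (𝓝 1) := by
    have := hf.tendsto 1
    rwa [map_one] at this
  have hFc : ∀ x ∈ F, ∀ g, x * f g = f g * x := by
    intro x hx g
    obtain ⟨t, rfl⟩ := hF x hx
    rw [← map_mul, ← map_mul, scalar_comm]
  have key : ∀ i : Fin (m - 1), ∃ u w : GL (Fin m) ℝ,
      (∀ j : Fin (m - 1), j ≠ i → dgU (dT m j) * u = u * dgU (dT m j) ∧ dgU (dT m j) * w = w * dgU (dT m j)) ∧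
      Tendsto (fun n : ℕ => (f (dgU (dT m i)) ^ n)⁻¹ * f u * f (dgU (dT m i)) ^ n) atTop (𝓝 1) ∧
      Tendsto (fun n : ℕ => f (dgU (dT m i)) ^ n * f w * (f (dgU (dT m i)) ^ n)⁻¹) atTop (𝓝 1) ∧
      DiscreteTopology (Subgroup.closure {f u, f w}) ∧ Pool.Agent.Helper90.RK.NonAm (Subgroup.closure {f u, f w}) := by
    intro i
    have hi := i.2
    have hi0 : (i : ℕ) < m := by omega
    have hi1 : (i : ℕ) + 1 < m := by omega
    obtain ⟨ρ, _, _, e, he0, he1⟩ := exists_e (k := (⟨(i : ℕ), hi0⟩ : Fin m)) (l := ⟨(i : ℕ) + 1, hi1⟩) (by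
      intro h
      have := congrArg Fin.val h
      simp only at this
      omega)
    have d0 : ∀ j : Fin (m - 1), j ≠ i → dT m j (e (Sum.inl 0)) = dT m j (e (Sum.inl 1)) := by
      intro j hj
      rw [he0, he1]
      have hj' : (j : ℕ) ≠ i := fun h => hj (Fin.ext h)
      rcases Nat.lt_or_gt_of_ne hj' with h | h
      · rw [dT_gt (by exact h), dT_gt (by show (j : ℕ) < i + 1; omega)]
      · rw [dT_le (by exact h.le), dT_le (by show (i : ℕ) + 1 ≤ j; omega)]
    have d1 : ∀ n : ℕ, (((dT m i ^ n) (e (Sum.inl 0)) : ℝˣ) : ℝ) =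
        (2 ^ m) ^ n * (((dT m i ^ n) (e (Sum.inl 1)) : ℝˣ) : ℝ) := by
      intro n
      have h0 : dT m i (⟨(i : ℕ), hi0⟩ : Fin m) = two' ^ m * dT m i ⟨(i : ℕ) + 1, hi1⟩ :=
        dT_quot hi1 (by show (i : ℕ) ≤ i; exact le_refl _) (by show (i : ℕ) < i + 1; omega)
      rw [he0, he1, Pi.pow_apply, Pi.pow_apply, h0, mul_pow, Units.val_mul,
        Units.val_pow_eq_pow_val, Units.val_pow_eq_pow_val, two'_coe]
    have hlim := tend_pow (m := m) (by omega) 4
    refine ⟨jb e (uE 4), jb e (lE 4), fun j hj => ⟨?_, ?_⟩, ?_, ?_, ?_, ?_⟩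
    · rw [dgU_uE e (t := 4) (s := 4) (by rw [d0 j hj, mul_comm])]
    · rw [dgU_lE e (t := 4) (s := 4) (by rw [d0 j hj, mul_comm])]
    · refine (hf1.comp (tendsto_uE e hlim)).congr fun n => ?_
      have h1 : dgU (dT m i ^ n) * jb e (uE (4 / (2 ^ m) ^ n)) = jb e (uE 4) * dgU (dT m i ^ n) :=
        dgU_uE e (by rw [d1]; field_simp)
      show f (jb e (uE (4 / (2 ^ m) ^ n))) = _
      rw [← map_pow, ← map_pow, ← map_inv, ← map_mul, ← map_mul]
      congr 1
      rw [mul_assoc, ← h1, inv_mul_cancel_left]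
    · refine (hf1.comp (tendsto_lE e hlim)).congr fun n => ?_
      have h1 : dgU (dT m i ^ n) * jb e (lE 4) = jb e (lE (4 / (2 ^ m) ^ n)) * dgU (dT m i ^ n) :=
        dgU_lE e (by rw [d1]; field_simp)
      show f (jb e (lE (4 / (2 ^ m) ^ n))) = _
      rw [← map_pow, ← map_pow, ← map_inv, ← map_mul, ← map_mul]
      congr 1
      rw [h1, mul_inv_cancel_right]
    · rw [← range_fz]
      exact discrete_range e f hp
    · rw [← range_fz]
      exact nonAm_range e f hk
  choose u w huw using key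
  refine ⟨fun i => f (dgU (dT m i)), fun i => f (u i), fun i => f (w i), fun i x hx => ⟨hFc x hx _, hFc x hx _, hFc x hx _⟩,
    fun i j => ?_, fun i j hij => ⟨?_, ?_⟩, fun i => (huw i).2, fun i j hi => ?_⟩
  · show f (dgU (dT m i)) * f (dgU (dT m j)) = f (dgU (dT m j)) * f (dgU (dT m i))
    rw [← f.map_mul, ← f.map_mul, dgU_comm]
  · show f (dgU (dT m i)) * f (u j) = f (u j) * f (dgU (dT m i))
    rw [← map_mul, ← map_mul, ((huw j).1 i hij).1]
  · show f (dgU (dT m i)) * f (w j) = f (w j) * f (dgU (dT m i))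
    rw [← map_mul, ← map_mul, ((huw j).1 i hij).2]
  · -- the Mautner property
    show f (dgU (dT m j)) ∈ closure (Subgroup.closure (Ctr (F : Set G) (f (dgU (dT m i)))) : Set G)
    refine subset_closure ?_
    obtain ⟨M, rfl⟩ : ∃ M, m = M + 1 := ⟨m - 1, by have := i.2; omega⟩
    have hj := j.2
    have hM : 1 ≤ M := by omega
    have hi2 := i.2
    obtain ⟨ψ, hψ⟩ : ∃ ψ : SpecialLinearGroup (Fin (M + 1)) ℝ →* G, ψ = f.comp SpecialLinearGroup.toGL := ⟨_, rfl⟩
    have hψc : Continuous ψ := by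
      rw [hψ]
      exact hf.comp toGL_cont
    have hψ1 : Tendsto ψ (𝓝 1) (𝓝 1) := by
      have := hψc.tendsto 1
      rwa [map_one] at this
    have hψa : ∀ s, ψ s = f (SpecialLinearGroup.toGL s) := fun s => by rw [hψ]; rfl
    have hq : ∀ (n : ℕ) (l : Fin (M + 1)), l ≠ 0 → (((dT (M + 1) i ^ n) 0 : ℝˣ) : ℝ) =
        (2 ^ (M + 1)) ^ n * (((dT (M + 1) i ^ n) l : ℝˣ) : ℝ) := by
      intro n l hl
      have hl' : (i : ℕ) < (l : ℕ) := by
        rw [hi]
        exact Nat.pos_of_ne_zero fun h => hl (Fin.ext h)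
      rw [Pi.pow_apply, Pi.pow_apply, dT_quot (by omega) (Nat.zero_le _ : ((0 : Fin (M + 1)) : ℕ) ≤ i) hl', mul_pow, Units.val_mul,
        Units.val_pow_eq_pow_val, Units.val_pow_eq_pow_val, two'_coe]
    have hle : (sgF ℝ (M + 1)).Eg ≤ (Subgroup.closure (Ctr (F : Set G) (f (dgU (dT (M + 1) i))))).comap ψ := by
      refine (sgF ℝ (M + 1)).Eg_le 0 _ ?_ ?_
      · intro s g hg0 hs
        show ψ s ∈ Subgroup.closure (Ctr (F : Set G) (f (dgU (dT (M + 1) i))))
        refine Subgroup.subset_closure ⟨fun x hx => by rw [hψa]; exact hFc x hx _, Or.inl ?_⟩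
        have hdet : ∀ t : ℝ, (1 + vecMulVec (Pi.single 0 1 : Fin (M + 1) → ℝ) (t • g)).det = 1 := by
          intro t
          rw [vecMulVec_eq Unit, det_one_add_replicateCol_mul_replicateRow, dotProduct_single_one, Pi.smul_apply, hg0,
            smul_zero, add_zero]
        obtain ⟨T, hT⟩ : ∃ T : ℝ → SpecialLinearGroup (Fin (M + 1)) ℝ,
            T = fun t => ⟨1 + vecMulVec (Pi.single 0 1 : Fin (M + 1) → ℝ) (t • g), hdet t⟩ := ⟨_, rfl⟩
        have hTc : Continuous T := by
          rw [hT]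
          refine Continuous.subtype_mk ?_ _
          refine continuous_matrix fun x y => ?_
          simp only [Matrix.add_apply, vecMulVec_apply, Pi.smul_apply, smul_eq_mul]
          fun_prop
        have hT0 : T 0 = 1 := by
          rw [hT]
          apply Subtype.ext
          show 1 + vecMulVec (Pi.single 0 1 : Fin (M + 1) → ℝ) ((0 : ℝ) • g) = 1
          rw [zero_smul]
          simp
        have h1 : Tendsto (fun n : ℕ => ψ (T (1 / (2 ^ (M + 1)) ^ n))) atTop (𝓝 1) := by
          have h2 := (hTc.tendsto 0).comp (tend_pow (m := M + 1) (by omega) 1)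
          rw [hT0] at h2
          exact hψ1.comp h2
        refine h1.congr fun n => ?_
        have h2 : dgU (dT (M + 1) i ^ n) * SpecialLinearGroup.toGL (T (1 / (2 ^ (M + 1)) ^ n)) =
            SpecialLinearGroup.toGL s * dgU (dT (M + 1) i ^ n) := by
          apply Units.ext
          show (diagonal fun k => (((dT (M + 1) i ^ n) k : ℝˣ) : ℝ)) * (T (1 / (2 ^ (M + 1)) ^ n)).1 =
            s.1 * diagonal fun k => (((dT (M + 1) i ^ n) k : ℝˣ) : ℝ)
          have hs' : ∀ x y, s.1 x y = (1 : Matrix (Fin (M + 1)) (Fin (M + 1)) ℝ) x y +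
              (Pi.single 0 1 : Fin (M + 1) → ℝ) x * g y := by
            intro x y
            have h3 : s.1 = 1 + vecMulVec (Pi.single 0 1 : Fin (M + 1) → ℝ) g := hs
            rw [h3, Matrix.add_apply, vecMulVec_apply]
          have hT' : ∀ t x y, (T t).1 x y = (1 : Matrix (Fin (M + 1)) (Fin (M + 1)) ℝ) x y +
              (Pi.single 0 1 : Fin (M + 1) → ℝ) x * (t * g y) := by
            intro t x y
            have h3 : (T t).1 = 1 + vecMulVec (Pi.single 0 1 : Fin (M + 1) → ℝ) (t • g) := by rw [hT]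
            rw [h3, Matrix.add_apply, vecMulVec_apply, Pi.smul_apply, smul_eq_mul]
          ext x y
          rw [diagonal_mul, mul_diagonal, hs', hT']
          by_cases hx : x = 0
          · subst hx
            rw [Pi.single_eq_same]
            by_cases hy : y = 0
            · subst hy
              rw [hg0, one_apply_eq]
              ring
            · rw [one_apply_ne (Ne.symm hy), hq n y hy]
              field_simp
              ring
          · rw [Pi.single_eq_of_ne hx]
            by_cases hxy : x = y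
            · subst hxy
              rw [one_apply_eq]
              ring
            · rw [one_apply_ne hxy]
              ring
        show ψ (T (1 / (2 ^ (M + 1)) ^ n)) = (f (dgU (dT (M + 1) i)) ^ n)⁻¹ * ψ s * f (dgU (dT (M + 1) i)) ^ n
        rw [hψa, hψa, ← map_pow, ← map_pow, ← map_inv, ← map_mul, ← map_mul]
        congr 1
        rw [mul_assoc, ← h2, inv_mul_cancel_left]
      · intro s v hv0 hs
        show ψ s ∈ Subgroup.closure (Ctr (F : Set G) (f (dgU (dT (M + 1) i))))
        refine Subgroup.subset_closure ⟨fun x hx => by rw [hψa]; exact hFc x hx _, Or.inr ?_⟩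
        have hdet : ∀ t : ℝ, (1 + vecMulVec (t • v) (Pi.single 0 1 : Fin (M + 1) → ℝ)).det = 1 := by
          intro t
          rw [vecMulVec_eq Unit, det_one_add_replicateCol_mul_replicateRow, single_one_dotProduct, Pi.smul_apply, hv0,
            smul_zero, add_zero]
        obtain ⟨T, hT⟩ : ∃ T : ℝ → SpecialLinearGroup (Fin (M + 1)) ℝ,
            T = fun t => ⟨1 + vecMulVec (t • v) (Pi.single 0 1 : Fin (M + 1) → ℝ), hdet t⟩ := ⟨_, rfl⟩
        have hTc : Continuous T := by
          rw [hT]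
          refine Continuous.subtype_mk ?_ _
          refine continuous_matrix fun x y => ?_
          simp only [Matrix.add_apply, vecMulVec_apply, Pi.smul_apply, smul_eq_mul]
          fun_prop
        have hT0 : T 0 = 1 := by
          rw [hT]
          apply Subtype.ext
          show 1 + vecMulVec ((0 : ℝ) • v) (Pi.single 0 1 : Fin (M + 1) → ℝ) = 1
          rw [zero_smul]
          simp
        have h1 : Tendsto (fun n : ℕ => ψ (T (1 / (2 ^ (M + 1)) ^ n))) atTop (𝓝 1) := by
          have h2 := (hTc.tendsto 0).comp (tend_pow (m := M + 1) (by omega) 1)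
          rw [hT0] at h2
          exact hψ1.comp h2
        refine h1.congr fun n => ?_
        have h2 : dgU (dT (M + 1) i ^ n) * SpecialLinearGroup.toGL s =
            SpecialLinearGroup.toGL (T (1 / (2 ^ (M + 1)) ^ n)) * dgU (dT (M + 1) i ^ n) := by
          apply Units.ext
          show (diagonal fun k => (((dT (M + 1) i ^ n) k : ℝˣ) : ℝ)) * s.1 =
            (T (1 / (2 ^ (M + 1)) ^ n)).1 * diagonal fun k => (((dT (M + 1) i ^ n) k : ℝˣ) : ℝ)
          have hs' : ∀ x y, s.1 x y = (1 : Matrix (Fin (M + 1)) (Fin (M + 1)) ℝ) x y +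
              v x * (Pi.single 0 1 : Fin (M + 1) → ℝ) y := by
            intro x y
            have h3 : s.1 = 1 + vecMulVec v (Pi.single 0 1 : Fin (M + 1) → ℝ) := hs
            rw [h3, Matrix.add_apply, vecMulVec_apply]
          have hT' : ∀ t x y, (T t).1 x y = (1 : Matrix (Fin (M + 1)) (Fin (M + 1)) ℝ) x y +
              t * v x * (Pi.single 0 1 : Fin (M + 1) → ℝ) y := by
            intro t x y
            have h3 : (T t).1 = 1 + vecMulVec (t • v) (Pi.single 0 1 : Fin (M + 1) → ℝ) := by rw [hT]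
            rw [h3, Matrix.add_apply, vecMulVec_apply, Pi.smul_apply, smul_eq_mul]
          ext x y
          rw [diagonal_mul, mul_diagonal, hs', hT']
          by_cases hy : y = 0
          · subst hy
            rw [Pi.single_eq_same]
            by_cases hx : x = 0
            · subst hx
              rw [hv0, one_apply_eq]
              ring
            · rw [one_apply_ne hx, hq n x hx]
              field_simp
              ring
          · rw [Pi.single_eq_of_ne hy]
            by_cases hxy : x = y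
            · subst hxy
              rw [one_apply_eq]
              ring
            · rw [one_apply_ne hxy]
              ring
        show ψ (T (1 / (2 ^ (M + 1)) ^ n)) = f (dgU (dT (M + 1) i)) ^ n * ψ s * (f (dgU (dT (M + 1) i)) ^ n)⁻¹
        rw [hψa, hψa, ← map_pow, ← map_pow, ← map_inv, ← map_mul, ← map_mul]
        congr 1
        rw [h2, mul_inv_cancel_right]
    rw [gen_F ℝ M] at hle
    -- the diagonal element is in the image of the special linear group
    have hdj : (diagonal fun k => (((dT (M + 1) j) k : ℝˣ) : ℝ)).det = 1 := by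
      rw [det_diagonal]
      exact prod_dT (by omega)
    obtain ⟨t, ht⟩ : ∃ t : SpecialLinearGroup (Fin (M + 1)) ℝ, t.1 = diagonal fun k => (((dT (M + 1) j) k : ℝˣ) : ℝ) :=
      ⟨⟨_, hdj⟩, rfl⟩
    have h6 : SpecialLinearGroup.toGL t = dgU (dT (M + 1) j) := Units.ext ht
    have h7 := hle (Subgroup.mem_top t)
    rw [Subgroup.mem_comap, hψa, h6] at h7
    exact h7

end Pool.Agent.Helper42.TZ
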