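import Pool.Agent.Helper42.TZ.C.Dir
import Pool.Agent.Helper42.TZ.C.Two
import Pool.Agent.Helper42.TZ.C.Flip

/-!
# Project TZ (MP_0f6f3f_an): concrete sources, both directions

`CS.exists_src`: for a concrete source `C : CS K m S S'` whose diagonal elements come from `GL(m, ℝ) → S` and with an automorphism `θ`, `θ (D t) = D (-t)`: everything `tz_main` needs.
-/

set_option autoImplicit false
set_option linter.unusedSectionVars false

open Matrix Topology Filter MeasureTheory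

namespace Pool.Agent.Helper42.TZ

open Pool.Agent.Helper43.TZ Pool.Agent.Helper43.TA Pool.Agent.Helper96.FR

variable {K : Type} [NormedDivisionRing K] [NormedAlgebra ℝ K] [FiniteDimensional ℝ K] {m : ℕ}
variable {S S' : Type} [Group S] [TopologicalSpace S] [Group S'] [TopologicalSpace S'] (C : CS K m S S')

/-- what `tz_main` needs from the source -/
def HasSrc (G : Type) [Group G] [TopologicalSpace G] [IsTopologicalGroup G] (r d : ℕ) : Prop :=
  ∃ (F : Subgroup G) (par : G → ℝ) (f : ℕ → G), TwoF r F ∧ Nonempty (Dir G F par d) ∧ Nonempty (Dir G F (fun g => -par g) d) ∧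
    (∀ g ∈ F, par g⁻¹ = -par g) ∧ (∀ n, f n ∈ F) ∧ Tendsto f atTop (cocompact G) ∧ Tendsto (fun n => par (f n)) atTop atTop

/-- `e^t` as a unit -/
noncomputable def eu (t : ℝ) : ℝˣ := Units.mk0 (Real.exp t) (Real.exp_pos t).ne'

theorem CS.exists_src [IsTopologicalGroup S] [IsTopologicalGroup S'] [T2Space (S ⧸ Subgroup.center S)] [SecondCountableTopology S]
    [LocallyCompactSpace (S ⧸ Subgroup.center S)] (hm : 2 ≤ m) (hZ : IsCompact (Subgroup.center S : Set S)) (f : GL (Fin m) ℝ →* S) (hfc : Continuous f)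
    (hfp : Tendsto f (cocompact _) (cocompact S)) (hfD : ∀ t, C.D t = f (dgU fun _ => eu t))
    (hk : ∀ g, f g ∈ Subgroup.center S → (g : Matrix (Fin m) (Fin m) ℝ) = 1 ∨ (g : Matrix (Fin m) (Fin m) ℝ) = -1)
    (θ : S ≃* S) (hθ : Continuous θ) (hθ' : Continuous θ.symm) (hθD : ∀ t, θ (C.D t) = C.D (-t)) :
    HasSrc (S ⧸ Subgroup.center S) (m - 1) (Module.finrank ℝ K * (m * (m - 1))) := by
  let π : S →* S ⧸ Subgroup.center S := QuotientGroup.mk' _
  have hπ : Continuous π := QuotientGroup.continuous_mk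
  let F : Subgroup (S ⧸ Subgroup.center S) :=
    { carrier := {x | ∃ t : ℝ, x = π (C.D t)}
      one_mem' := ⟨0, by rw [C.D_zero, map_one]⟩
      mul_mem' := by
        rintro a b ⟨s, rfl⟩ ⟨t, rfl⟩
        exact ⟨s + t, by rw [C.D_add, map_mul]⟩
      inv_mem' := by
        rintro a ⟨s, rfl⟩
        exact ⟨-s, by rw [C.D_neg, map_inv]⟩ }
  obtain ⟨nrm, hnc, hn⟩ := exists_lift (h := fun s => ‖C.Q.φ s 0 0‖) (C.Q.continuous_elem 0 0).norm
    (fun s z hz => C.Q.norm_center (by omega) 0 0 s hz)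
  have hnD : ∀ t, nrm (π (C.D t)) = Real.exp t := by
    intro t
    have h1 : nrm (π (C.D t)) = ‖C.Q.φ (C.D t) 0 0‖ := hn (C.D t)
    rw [h1, C.hD', diagonal_apply_eq, norm_algebraMap', Real.norm_of_nonneg (wt_pos t 0).le]
    have h0 : (0 : Fin (m + 1)) = Fin.castSucc ⟨0, by omega⟩ := rfl
    rw [h0, wt_castSucc]
  let par : S ⧸ Subgroup.center S → ℝ := fun g => Real.log (nrm g)
  have hpar : ∀ t, par (π (C.D t)) = t := by
    intro t
    show Real.log (nrm (π (C.D t))) = t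
    rw [hnD, Real.log_exp]
  obtain ⟨D⟩ := C.exists_dir hm F (fun x hx => hx) par hpar
  obtain ⟨θ', hc1, hc2, hθ'⟩ := quot_aut θ hθ hθ'
  have hθF : ∀ t, θ' (π (C.D t)) = π (C.D (-t)) := by
    intro t
    have h1 : θ' (π (C.D t)) = π (θ (C.D t)) := hθ' (C.D t)
    rw [h1, hθD]
  refine ⟨F, par, fun n => π (C.D n), ?_, ⟨D⟩, ?_, ?_, fun n => ⟨n, rfl⟩, ?_, ?_⟩
  · refine twoF_of_GL (π.comp f) (hπ.comp hfc) ((tendsto_quot _ hZ).comp hfp) (fun g hg => hk g ?_) F ?_
    · exact (QuotientGroup.eq_one_iff _).1 hg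
    · rintro x ⟨t, rfl⟩
      exact ⟨eu t, by rw [hfD]; rfl⟩
  · refine exists_flip D θ' hc1 hc2 ?_ ?_
    · rintro x ⟨t, rfl⟩
      exact ⟨-t, hθF t⟩
    · rintro x ⟨t, rfl⟩
      rw [hθF, hpar, hpar]
  · rintro x ⟨t, rfl⟩
    rw [← map_inv, ← C.D_neg, hpar, hpar]
  · rw [(hasBasis_cocompact).tendsto_right_iff]
    intro B hB
    obtain ⟨M, hM⟩ := (hB.image hnc).bddAbove
    have h1 : Tendsto (fun n : ℕ => Real.exp n) atTop atTop := Real.tendsto_exp_atTop.comp tendsto_natCast_atTop_atTop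
    filter_upwards [h1.eventually (eventually_gt_atTop M)] with n hn' hmem
    have h2 : nrm (π (C.D n)) ≤ M := hM ⟨_, hmem, rfl⟩
    rw [hnD] at h2
    exact absurd h2 (not_le.2 hn')
  · simp only [hpar]
    exact tendsto_natCast_atTop_atTop

end Pool.Agent.Helper42.TZ
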