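import Pool.Agent.Helper42.TZ.C.Fin

/-!
# Project TZ (MP_0f6f3f_an): the source `PSL(m + 1, ℍ)`

`hasSrc_PSLH`.
-/

set_option autoImplicit false
set_option linter.unusedSectionVars false

open Matrix Topology Filter MeasureTheory

namespace Pool.Agent.Helper42.TZ

open Pool.Agent.Helper43.TZ Pool.Agent.Helper43.TA Pool.Agent.Helper96.FR Pool.Agent.Helper84.SPQ
open Pool.Agent.Helper42.HC (qi qc qd qc_qi qd_qi qi_cd qi_zero)
open Pool.Agent.Helper96.HN (SLH PSLH val val_rE)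

variable {m : ℕ}

/-- the permutation of the blocks -/
def eQ (m : ℕ) : (Fin m ⊕ Fin m) ⊕ (Fin 1 ⊕ Fin 1) ≃ Fin (m + 1) ⊕ Fin (m + 1) :=
  (Equiv.sumSumSumComm (Fin m) (Fin m) (Fin 1) (Fin 1)).trans (Equiv.sumCongr (eS m) (eS m))

theorem det_qM_bl1 (A : Matrix (Fin m) (Fin m) Hq) : (qM (bl1 A)).det = (qM A).det := by
  have h1 : (qM (bl1 A)).submatrix (eQ m) (eQ m) = fromBlocks (qM A) 0 0 1 := by
    refine Matrix.ext fun a b => ?_
    rw [submatrix_apply]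
    have e1 : ∀ i : Fin m, eQ m (Sum.inl (Sum.inl i)) = Sum.inl i.castSucc := fun i => rfl
    have e2 : ∀ i : Fin m, eQ m (Sum.inl (Sum.inr i)) = Sum.inr i.castSucc := fun i => rfl
    have e3 : ∀ i : Fin 1, eQ m (Sum.inr (Sum.inl i)) = Sum.inl (Fin.last m) := fun i => by
      show Sum.inl (eS m (Sum.inr i)) = _
      rw [eS_inr]
    have e4 : ∀ i : Fin 1, eQ m (Sum.inr (Sum.inr i)) = Sum.inr (Fin.last m) := fun i => by
      show Sum.inr (eS m (Sum.inr i)) = _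
      rw [eS_inr]
    have c1 : ∀ M : Matrix (Fin (m + 1)) (Fin (m + 1)) Hq, ∀ i j, qM M (Sum.inl i) (Sum.inl j) = qc (M i j) := fun _ _ _ => rfl
    have c2 : ∀ M : Matrix (Fin (m + 1)) (Fin (m + 1)) Hq, ∀ i j, qM M (Sum.inl i) (Sum.inr j) = -starRingEnd ℂ (qd (M i j)) := fun _ _ _ => rfl
    have c3 : ∀ M : Matrix (Fin (m + 1)) (Fin (m + 1)) Hq, ∀ i j, qM M (Sum.inr i) (Sum.inl j) = qd (M i j) := fun _ _ _ => rfl
    have c4 : ∀ M : Matrix (Fin (m + 1)) (Fin (m + 1)) Hq, ∀ i j, qM M (Sum.inr i) (Sum.inr j) = starRingEnd ℂ (qc (M i j)) := fun _ _ _ => rfl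
    have c1' : ∀ M : Matrix (Fin m) (Fin m) Hq, ∀ i j, qM M (Sum.inl i) (Sum.inl j) = qc (M i j) := fun _ _ _ => rfl
    have c2' : ∀ M : Matrix (Fin m) (Fin m) Hq, ∀ i j, qM M (Sum.inl i) (Sum.inr j) = -starRingEnd ℂ (qd (M i j)) := fun _ _ _ => rfl
    have c3' : ∀ M : Matrix (Fin m) (Fin m) Hq, ∀ i j, qM M (Sum.inr i) (Sum.inl j) = qd (M i j) := fun _ _ _ => rfl
    have c4' : ∀ M : Matrix (Fin m) (Fin m) Hq, ∀ i j, qM M (Sum.inr i) (Sum.inr j) = starRingEnd ℂ (qc (M i j)) := fun _ _ _ => rfl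
    have z1 : ∀ i j : Fin 1, (i = j) = True := fun i j => eq_true (Subsingleton.elim i j)
    rcases a with (i | i) | (i | i) <;> rcases b with (j | j) | (j | j) <;>
      simp only [e1, e2, e3, e4, c1, c2, c3, c4, fromBlocks_apply₁₁, fromBlocks_apply₁₂, fromBlocks_apply₂₁, fromBlocks_apply₂₂,
        c1', c2', c3', c4', bl1_11, bl1_12, bl1_21, bl1_22, qc_zero, qd_zero, qc_one, qd_one, map_zero, neg_zero, map_one,
        Matrix.zero_apply, z1, Sum.inl.injEq, Sum.inr.injEq, one_apply, if_true, reduceCtorEq, if_false]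
  rw [← det_submatrix_equiv_self (eQ m) (qM (bl1 A)), h1, det_fromBlocks_zero₁₂, det_one, mul_one]

theorem fH_inj {g h : SLH m} (e : fH m g = fH m h) : g = h := fH_emb.injective e

theorem exists_j (s : SLH m) : ∃ g : SLH (m + 1), fH (m + 1) g = bl1 (fH m s) := by
  refine fH_surj _ ?_
  rw [det_qM_bl1, qM_fH, Pool.Agent.Helper96.HN.det_val]

/-- the block embedding of `SL(m, ℍ)` in `SL(m + 1, ℍ)` -/
noncomputable def jH (m : ℕ) : SLH m →* SLH (m + 1) where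
  toFun s := (exists_j s).choose
  map_one' := by
    apply fH_inj
    rw [(exists_j 1).choose_spec, map_one, map_one, bl1_one]
  map_mul' s t := by
    apply fH_inj
    rw [(exists_j (s * t)).choose_spec, map_mul, map_mul, (exists_j s).choose_spec, (exists_j t).choose_spec, bl1_mul]

theorem fH_jH (s : SLH m) : fH (m + 1) (jH m s) = bl1 (fH m s) := (exists_j s).choose_spec

theorem qi_real (a : ℝ) : qi (a : ℂ) 0 = algebraMap ℝ Hq a := by
  apply Quaternion.ext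
  · rfl
  · rfl
  · rfl
  · show -(0 : ℂ).im = 0
    simp

theorem fH_fH (g : GL (Fin m) ℝ) (p q : Fin (m + 1)) :
    fH (m + 1) (Pool.Agent.Helper96.HN.fH m g) p q =
      algebraMap ℝ Hq ((bS (𝕜 := ℝ) g.1 (g.1.det)⁻¹ : Matrix (Fin (m + 1)) (Fin (m + 1)) ℝ) p q) := by
  rw [fH_apply]
  have e1 : val (Pool.Agent.Helper96.HN.fH m g) = fromBlocks
      ((bS (𝕜 := ℝ) g.1 (g.1.det)⁻¹ : Matrix (Fin (m + 1)) (Fin (m + 1)) ℝ).map (algebraMap ℝ ℂ)) 0 0
      ((bS (𝕜 := ℝ) g.1 (g.1.det)⁻¹ : Matrix (Fin (m + 1)) (Fin (m + 1)) ℝ).map (algebraMap ℝ ℂ)) := rfl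
  rw [e1, fromBlocks_apply₁₁, fromBlocks_apply₂₁, map_apply, Matrix.zero_apply]
  exact qi_real _

/-- `SL(m + 1, ℍ)` -/
noncomputable def csH (m : ℕ) (hm : 1 ≤ m) : CS Hq m (SLH (m + 1)) (SLH m) where
  Q := sgH (m + 1)
  Qm := sgH m
  gen := gen_H hm
  j := jH m
  j1 s i i' := by
    show fH (m + 1) (jH m s) _ _ = _
    rw [fH_jH, bl1_11]
    rfl
  j2 s i := by
    show fH (m + 1) (jH m s) _ _ = _
    rw [fH_jH, bl1_12]
  j3 s i := by
    show fH (m + 1) (jH m s) _ _ = _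
    rw [fH_jH, bl1_21]
  j4 s := by
    show fH (m + 1) (jH m s) _ _ = _
    rw [fH_jH, bl1_22]
  D t := Pool.Agent.Helper96.HN.fH m (dgU fun _ => eu t)
  hD t := by
    refine Matrix.ext fun p q => ?_
    show fH (m + 1) (Pool.Agent.Helper96.HN.fH m _) p q = _
    rw [fH_fH, bS_eu ℝ t, diagonal_apply, diagonal_apply]
    by_cases h : p = q
    · rw [if_pos h, if_pos h]
      rfl
    · rw [if_neg h, if_neg h, map_zero]

/-- **The sources `PSL(m + 1, ℍ)`.** -/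
theorem hasSrc_PSLH (hm : 2 ≤ m) : HasSrc (PSLH (m + 1)) (m - 1) (Module.finrank ℝ Hq * (m * (m - 1))) := by
  obtain ⟨θ, h1, h2, h3⟩ := exists_theta_H (m + 1)
  have hm1 : 1 ≤ m := by omega
  refine (csH m hm1).exists_src hm Pool.Agent.Helper96.HN.isCompact_centerH (Pool.Agent.Helper96.HN.fH m) Pool.Agent.Helper96.HN.fH_cont
    (tendsto_of_bdd fun K hK => Pool.Agent.Helper96.HN.fH_bdd hK) (fun t => rfl)
    (fun g hg => (csH m hm1).Q.ker_of hm1 hg fun i i' => ?_) θ h1 h2 fun t => ?_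
  · show fH (m + 1) (Pool.Agent.Helper96.HN.fH m g) _ _ = _
    rw [fH_fH, (bS_entry ℝ _ _).2.2.2 i i']
    rfl
  · apply (csH m hm1).Q.inj
    have e1 : (csH m hm1).Q.φ (θ ((csH m hm1).D t)) = ((csH m hm1).Q.φ ((csH m hm1).D t)⁻¹)ᴴ := h3 _
    rw [e1, ← (csH m hm1).D_neg, (csH m hm1).hD', diagonal_conjTranspose]
    congr 1
    funext i
    show star (algebraMap ℝ Hq (wt m (-t) i)) = algebraMap ℝ Hq (wt m (-t) i)
    exact Quaternion.star_coe _

end Pool.Agent.Helper42.TZ
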