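import Pool.Agent.Helper42.TZ.C.Tr

/-!
# Project TZ (MP_0f6f3f_an): the centre of `S` and functions on `S ⧸ centre`
-/

set_option autoImplicit false
set_option linter.unusedSectionVars false

open Matrix Topology Filter

namespace Pool.Agent.Helper42.TZ

variable {K : Type} [NormedDivisionRing K] [NormedAlgebra ℝ K] [FiniteDimensional ℝ K] {m : ℕ}
variable {S : Type} [Group S] [TopologicalSpace S]

theorem SG.ne_zero (Q : SG K (m + 1) S) (s : S) : Q.φ s ≠ 0 := by
  intro h
  have h1 := Q.mul_inv s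
  rw [h, Matrix.zero_mul] at h1
  have h2 := congrFun (congrFun h1 0) 0
  rw [Matrix.one_apply_eq] at h2
  exact zero_ne_one h2

theorem SG.norm_le_of_scalar (Q : SG K (m + 1) S) {z : S} {c : K} (h : Q.φ z = diagonal fun _ => c) : 1 ≤ ‖c‖ := by
  by_contra hc
  rw [not_le] at hc
  have h1 : ∀ n : ℕ, Q.φ (z ^ n) = diagonal fun _ => c ^ n := by
    intro n
    rw [map_pow, h, diagonal_pow]
    rfl
  have h2 : Tendsto (fun n : ℕ => Q.φ (z ^ n)) atTop (𝓝 0) := by
    have h3 : Tendsto (fun n : ℕ => c ^ n) atTop (𝓝 0) := tendsto_pow_atTop_nhds_zero_of_norm_lt_one hc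
    have h4 : Tendsto (fun n : ℕ => (diagonal fun _ : Fin (m + 1) => c ^ n)) atTop (𝓝 (diagonal fun _ : Fin (m + 1) => (0 : K))) :=
      ((continuous_id.matrix_diagonal (n := Fin (m + 1)) (R := K)).tendsto _).comp (tendsto_pi_nhds.2 fun _ => h3)
    have e : (diagonal fun _ : Fin (m + 1) => (0 : K)) = 0 := diagonal_zero
    rw [e] at h4
    exact h4.congr fun n => (h1 n).symm
  obtain ⟨g, hg⟩ := Q.emb.isClosed_range.mem_of_tendsto h2 (Eventually.of_forall fun n => ⟨z ^ n, rfl⟩)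
  exact Q.ne_zero g hg

/-- central elements are scalar -/
theorem SG.center (Q : SG K (m + 1) S) (hm : 1 ≤ m) {z : S} (hz : z ∈ Subgroup.center S) :
    ∃ c : K, (∀ y, c * y = y * c) ∧ ‖c‖ = 1 ∧ Q.φ z = diagonal fun _ => c := by
  classical
  obtain ⟨M, hM⟩ : ∃ M, M = Q.φ z := ⟨_, rfl⟩
  have h1 : ∀ (p q : Fin (m + 1)) (y : K), p ≠ q → ∀ i j, M i p * (Pi.single q y : Fin (m + 1) → K) j =
      (Pi.single p 1 : Fin (m + 1) → K) i * (y * M q j) := by
    intro p q y hpq i j
    obtain ⟨g, hg⟩ := Q.tv (Pi.single p 1) (Pi.single q y) (by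
      rw [single_dotProduct]
      have : (Pi.single p 1 : Fin (m + 1) → K) q = 0 := Pi.single_eq_of_ne hpq.symm _
      rw [this, mul_zero])
    have h2 := congrArg Q.φ (Subgroup.mem_center_iff.1 hz g)
    rw [map_mul, map_mul, hg, ← hM, Matrix.mul_add, Matrix.add_mul, Matrix.mul_one, Matrix.one_mul] at h2
    have h3 := add_left_cancel h2
    rw [mul_vecMulVec, vecMulVec_mul] at h3
    have h4 := congrFun (congrFun h3 i) j
    rw [vecMulVec_apply, vecMulVec_apply, mulVec_single_one, single_vecMul] at h4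
    exact h4.symm
  have h2 : ∀ i p, i ≠ p → M i p = 0 := by
    intro i p hip
    have h3 := h1 p i 1 hip.symm i i
    rw [Pi.single_eq_same, mul_one] at h3
    have : (Pi.single p 1 : Fin (m + 1) → K) i = 0 := Pi.single_eq_of_ne hip _
    rw [h3, this, zero_mul]
  have h3 : ∀ (p q : Fin (m + 1)), p ≠ q → ∀ y, M p p * y = y * M q q := by
    intro p q hpq y
    have h4 := h1 p q y hpq p q
    rwa [Pi.single_eq_same, Pi.single_eq_same, one_mul] at h4
  have h01 : (0 : Fin (m + 1)) ≠ Fin.last m := by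
    intro h
    have := congrArg Fin.val h
    rw [Fin.val_last] at this
    have h' : (0 : ℕ) = m := this
    omega
  have h4 : ∀ p, M p p = M 0 0 := by
    intro p
    by_cases hp : p = 0
    · rw [hp]
    · have := h3 p 0 hp 1
      rwa [mul_one, one_mul] at this
  have hMc : M = diagonal fun _ => M 0 0 := by
    refine Matrix.ext fun i j => ?_
    rw [diagonal_apply]
    split_ifs with h
    · rw [← h, h4]
    · exact h2 i j h
  have h5 : ∀ y, M 0 0 * y = y * M 0 0 := by
    intro y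
    have h6 := h3 0 (Fin.last m) h01 y
    rwa [h4 (Fin.last m)] at h6
  have h6 : 1 ≤ ‖M 0 0‖ := Q.norm_le_of_scalar (z := z) (by rw [← hM]; exact hMc)
  have h7 : Q.φ z⁻¹ = diagonal fun _ => (M 0 0)⁻¹ := by
    have hne : M 0 0 ≠ 0 := by
      intro h0
      rw [h0, norm_zero] at h6
      norm_num at h6
    have e : (diagonal fun _ : Fin (m + 1) => (M 0 0)⁻¹) * Q.φ z = 1 := by
      rw [← hM]
      nth_rewrite 2 [hMc]
      rw [diagonal_mul_diagonal, ← diagonal_one]
      congr 1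
      funext i
      rw [inv_mul_cancel₀ hne]
    calc Q.φ z⁻¹ = ((diagonal fun _ : Fin (m + 1) => (M 0 0)⁻¹) * Q.φ z) * Q.φ z⁻¹ := by rw [e, Matrix.one_mul]
      _ = _ := by rw [Matrix.mul_assoc, Q.mul_inv, Matrix.mul_one]
  have h8 : 1 ≤ ‖(M 0 0)⁻¹‖ := Q.norm_le_of_scalar h7
  refine ⟨M 0 0, h5, le_antisymm ?_ h6, by rw [← hM]; exact hMc⟩
  rw [norm_inv] at h8
  exact (one_le_inv_iff₀.1 h8).2

/-- functions on the quotient -/
theorem exists_lift {X : Type} [TopologicalSpace X] [IsTopologicalGroup S] {h : S → X} (hc : Continuous h)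
    (hz : ∀ s, ∀ z ∈ Subgroup.center S, h (s * z) = h s) :
    ∃ h' : S ⧸ Subgroup.center S → X, Continuous h' ∧ ∀ s : S, h' (s : S ⧸ Subgroup.center S) = h s := by
  have e : ∀ a b : S, (QuotientGroup.leftRel (Subgroup.center S)) a b → h a = h b := by
    intro a b hab
    have h1 := QuotientGroup.leftRel_apply.1 hab
    have h2 := hz a _ h1
    rw [mul_inv_cancel_left] at h2
    exact h2.symm
  exact ⟨Quotient.lift h e, hc.quotient_lift e, fun s => rfl⟩

theorem tendsto_lift {X : Type} [TopologicalSpace X] [IsTopologicalGroup S] {h : S → X} (hc : Continuous h)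
    (hz : ∀ s, ∀ z ∈ Subgroup.center S, h (s * z) = h s) {l : Filter ℕ} {s : ℕ → S}
    (hs : Tendsto (fun n => ((s n : S) : S ⧸ Subgroup.center S)) l (𝓝 1)) : Tendsto (fun n => h (s n)) l (𝓝 (h 1)) := by
  obtain ⟨h', hc', hh⟩ := exists_lift hc hz
  have h1 := (hc'.tendsto 1).comp hs
  have h2 : h' (1 : S ⧸ Subgroup.center S) = h 1 := hh 1
  rw [h2] at h1
  exact h1.congr fun n => hh (s n)

/-- the norm of an entry is invariant under the centre -/
theorem SG.norm_center (Q : SG K (m + 1) S) (hm : 1 ≤ m) (p q : Fin (m + 1)) (s : S) {z : S} (hz : z ∈ Subgroup.center S) :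
    ‖Q.φ (s * z) p q‖ = ‖Q.φ s p q‖ := by
  obtain ⟨c, -, hc1, hc2⟩ := Q.center hm hz
  rw [map_mul, hc2, mul_diagonal, norm_mul, hc1, mul_one]

theorem SG.comm_center (Q : SG K (m + 1) S) (hm : 1 ≤ m) (p q : Fin (m + 1)) (y : K) (s : S) {z : S} (hz : z ∈ Subgroup.center S) :
    ‖Q.φ (s * z) p p * y - y * Q.φ (s * z) q q‖ = ‖Q.φ s p p * y - y * Q.φ s q q‖ := by
  obtain ⟨c, hc, hc1, hc2⟩ := Q.center hm hz
  rw [map_mul, hc2, mul_diagonal, mul_diagonal, mul_assoc, hc, ← mul_assoc, ← mul_assoc, ← sub_mul, norm_mul, hc1, mul_one]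

end Pool.Agent.Helper42.TZ
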