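import Pool.Agent.Helper42.TZ.C.Cen
import Pool.Agent.Helper78.BM.Erg

/-!
# Project TZ (MP_0f6f3f_an): the Mautner phenomenon for `SG`

`SG.mautner`: let `σ` be a unitary representation of `S ⧸ centre`, `ξ` a continuous vector fixed by the classes of the transvections `1 + e f` (`e` the last standard vector, `f e = 0`), and let `S` be generated by transvections. Then `ξ` is fixed.
For `f v = 1`, `e v = 0` let `X = e f`, `Y = v e`: `(1 + s X)(1 + ε Y)(1 + s' X) = 1 + (λ - 1) P + (λ⁻¹ - 1) R + ε Y`, `λ = 1 + s ε`, `s' = -s / λ`, `P = e e`, `R = v f`. So `ξ` is fixed by `h = 1 + (λ - 1) P + (λ⁻¹ - 1) R`; `h^n (1 + Y) h^(-n) = 1 + λ^(-2 n) Y`.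
-/

set_option autoImplicit false
set_option linter.unusedSectionVars false

open Matrix Topology Filter

namespace Pool.Agent.Helper42.TZ

open Pool.Agent.Helper96.FR (contVec mem_contVec mautner)
open Pool.Agent.Helper78.BM (mautner_unip)

section alg

variable {R : Type} [Ring R] [Algebra ℝ R]

theorem sl2_alg {X Y P T : R} (hXX : X * X = 0) (hXY : X * Y = P) (hYX : Y * X = T) (hPX : P * X = X) {s ε c : ℝ}
    (hc : 1 + s * ε = c) (hc0 : c ≠ 0) :
    (1 + s • X) * (1 + ε • Y) * (1 + (-(s / c)) • X) = 1 + (c - 1) • P + (c⁻¹ - 1) • T + ε • Y := by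
  have e1 : s * ε = c - 1 := by linarith
  have e2 : ε * -(s / c) = c⁻¹ - 1 := by
    field_simp
    linarith
  have e3 : -(s / c) + s + (s * ε * -(s / c)) = 0 := by
    rw [e1]
    field_simp
    ring
  generalize -(s / c) = s' at *
  generalize c⁻¹ = c' at *
  simp only [mul_add, add_mul, mul_one, one_mul, smul_mul_assoc, mul_smul_comm, hXX, hXY, hYX, hPX, smul_zero, add_zero]
  linear_combination (norm := module) e3 • X + e1 • P + e2 • T

end alg

variable {K : Type} [NormedDivisionRing K] [NormedAlgebra ℝ K] [FiniteDimensional ℝ K] {m : ℕ}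
variable {S : Type} [Group S] [TopologicalSpace S]

theorem tendsto_one_add {R : Type} [AddCommGroup R] [One R] [Module ℝ R] [TopologicalSpace R] [ContinuousAdd R] [ContinuousSMul ℝ R] (Y : R)
    {c : ℕ → ℝ} (hc : Tendsto c atTop (𝓝 0)) : Tendsto (fun n => 1 + c n • Y) atTop (𝓝 1) := by
  have h := (hc.smul_const Y).const_add 1
  rwa [zero_smul, add_zero] at h

/-- convergence in `S` -/
theorem SG.tendsto (Q : SG K m S) {l : Filter ℕ} {s : ℕ → S} {g : S} (h : Tendsto (fun n => Q.φ (s n)) l (𝓝 (Q.φ g))) :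
    Tendsto s l (𝓝 g) := Q.emb.isInducing.tendsto_nhds_iff.2 h

theorem SG.mautner [IsTopologicalGroup S] (Q : SG K (m + 1) S) (gen : Q.Eg = ⊤) {H : Type} [NormedAddCommGroup H] [InnerProductSpace ℂ H]
    (σ : (S ⧸ Subgroup.center S) →* (H ≃ₗᵢ[ℂ] H)) {ξ : H} (hξ : ξ ∈ contVec σ)
    (h1 : ∀ (s : S) (f : Fin (m + 1) → K), f (Fin.last m) = 0 → Q.φ s = 1 + vecMulVec (Pi.single (Fin.last m) 1) f →
      σ (s : S ⧸ Subgroup.center S) ξ = ξ) (g : S ⧸ Subgroup.center S) : σ g ξ = ξ := by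
  classical
  let π : S →* S ⧸ Subgroup.center S := QuotientGroup.mk' _
  have hπ : Continuous π := QuotientGroup.continuous_mk
  have hπ1 : ∀ {l : Filter ℕ} {s : ℕ → S} {g : S}, Tendsto s l (𝓝 g) → Tendsto (fun n => π (s n)) l (𝓝 (π g)) :=
    fun h => (hπ.tendsto _).comp h
  let N : Subgroup S :=
    { carrier := {s | σ (π s) ξ = ξ}
      one_mem' := by
        show σ (π 1) ξ = ξ
        rw [map_one, map_one]
        rfl
      mul_mem' := fun {a b} ha hb => by
        show σ (π (a * b)) ξ = ξ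
        have ha' : σ (π a) ξ = ξ := ha
        have hb' : σ (π b) ξ = ξ := hb
        rw [map_mul, map_mul]
        show σ (π a) (σ (π b) ξ) = ξ
        rw [hb', ha']
      inv_mem' := fun {a} ha => by
        show σ (π a⁻¹) ξ = ξ
        have ha' : σ (π a) ξ = ξ := ha
        rw [map_inv, map_inv]
        show (σ (π a)).symm ξ = ξ
        rw [LinearIsometryEquiv.symm_apply_eq, ha'] }
  have hN : Q.Eg ≤ N := by
    refine Q.Eg_le (Fin.last m) N (fun s f hf hs => h1 s f hf hs) fun s v hv hs => ?_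
    by_cases hv0 : v = 0
    · have h3 : s = 1 := by
        apply Q.inj
        rw [hs, map_one, hv0]
        have h3 : vecMulVec (0 : Fin (m + 1) → K) (Pi.single (Fin.last m) 1) = 0 := by
          refine Matrix.ext fun i j => ?_
          rw [vecMulVec_apply, Pi.zero_apply, zero_mul]
          rfl
        rw [h3, add_zero]
      rw [h3]
      exact N.one_mem
    obtain ⟨i, hi⟩ : ∃ i, v i ≠ 0 := Function.ne_iff.1 hv0
    have hip : i ≠ Fin.last m := by
      rintro rfl
      exact hi hv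
    obtain ⟨f, hf⟩ : ∃ f : Fin (m + 1) → K, f = (v i)⁻¹ • Pi.single i 1 := ⟨_, rfl⟩
    obtain ⟨e, he⟩ : ∃ e : Fin (m + 1) → K, e = Pi.single (Fin.last m) 1 := ⟨_, rfl⟩
    have hfv : f ⬝ᵥ v = 1 := by
      rw [hf, smul_dotProduct, single_one_dotProduct, smul_eq_mul, inv_mul_cancel₀ hi]
    have hfe : f ⬝ᵥ e = 0 := by
      rw [hf, he, smul_dotProduct, single_one_dotProduct]
      have : (Pi.single (Fin.last m) 1 : Fin (m + 1) → K) i = 0 := Pi.single_eq_of_ne hip _
      rw [this, smul_zero]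
    have hfl : f (Fin.last m) = 0 := by
      rw [hf]
      have : (Pi.single i 1 : Fin (m + 1) → K) (Fin.last m) = 0 := Pi.single_eq_of_ne hip.symm _
      rw [Pi.smul_apply, this, smul_zero]
    have hev : e ⬝ᵥ v = 0 := by rw [he, single_one_dotProduct, hv]
    have hee : e ⬝ᵥ e = 1 := by rw [he, single_one_dotProduct, Pi.single_eq_same]
    obtain ⟨X, hX⟩ : ∃ X, X = vecMulVec e f := ⟨_, rfl⟩
    obtain ⟨Y, hY⟩ : ∃ Y, Y = vecMulVec v e := ⟨_, rfl⟩
    obtain ⟨P, hP⟩ : ∃ P, P = vecMulVec e e := ⟨_, rfl⟩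
    obtain ⟨T, hT⟩ : ∃ T, T = vecMulVec v f := ⟨_, rfl⟩
    have vm0 : ∀ w : Fin (m + 1) → K, vecMulVec w (0 : Fin (m + 1) → K) = 0 := by
      intro w
      refine Matrix.ext fun i j => ?_
      rw [vecMulVec_apply, Pi.zero_apply, mul_zero]
      rfl
    have hXX : X * X = 0 := by rw [hX, vecMulVec_mul_vecMulVec, hfe, zero_smul, vm0]
    have hXY : X * Y = P := by rw [hX, hY, hP, vecMulVec_mul_vecMulVec, hfv, one_smul]
    have hYX : Y * X = T := by rw [hX, hY, hT, vecMulVec_mul_vecMulVec, hee, one_smul]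
    have hPX : P * X = X := by rw [hP, hX, vecMulVec_mul_vecMulVec, hee, one_smul]
    have hPY : P * Y = 0 := by rw [hP, hY, vecMulVec_mul_vecMulVec, hev, zero_smul, vm0]
    have hTY : T * Y = Y := by rw [hT, hY, vecMulVec_mul_vecMulVec, hfv, one_smul]
    have hYP : Y * P = Y := by rw [hP, hY, vecMulVec_mul_vecMulVec, hee, one_smul]
    have hYT : Y * T = 0 := by rw [hT, hY, vecMulVec_mul_vecMulVec, hev, zero_smul, vm0]
    -- the one-parameter groups
    have hsm : ∀ (c : ℝ) (a b : Fin (m + 1) → K), c • vecMulVec a b = vecMulVec a (c • b) := by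
      intro c a b
      refine Matrix.ext fun i j => ?_
      rw [Matrix.smul_apply, vecMulVec_apply, vecMulVec_apply, Pi.smul_apply, mul_smul_comm]
    have hu : ∀ c : ℝ, ∃ g, Q.φ g = 1 + c • X := by
      intro c
      obtain ⟨g, hg⟩ := Q.tv e (c • f) (by rw [smul_dotProduct, hfe, smul_zero])
      exact ⟨g, by rw [hg, hX, hsm]⟩
    have hy : ∀ c : ℝ, ∃ g, Q.φ g = 1 + c • Y := by
      intro c
      obtain ⟨g, hg⟩ := Q.tv v (c • e) (by rw [smul_dotProduct, hev, smul_zero])
      exact ⟨g, by rw [hg, hY, hsm]⟩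
    choose u hu using hu
    choose y hy using hy
    have huN : ∀ c, σ (π (u c)) ξ = ξ := by
      intro c
      refine h1 (u c) (c • f) (by rw [Pi.smul_apply, hfl, smul_zero]) ?_
      rw [hu, hX, hsm, he]
    have hy1 : ∀ {c : ℕ → ℝ}, Tendsto c atTop (𝓝 0) → Tendsto (fun n => y (c n)) atTop (𝓝 1) := by
      intro c hc
      refine Q.tendsto ?_
      rw [map_one]
      simp only [hy]
      exact tendsto_one_add Y hc
    -- the element `h`
    let ε : ℕ → ℝ := fun n => 1 / ((n : ℝ) + 1)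
    have hε : Tendsto ε atTop (𝓝 0) := tendsto_one_div_add_atTop_nhds_zero_nat
    have hε0 : ∀ n, ε n ≠ 0 := fun n => (div_pos one_pos (by positivity)).ne'
    have hlim : Tendsto (fun n => Q.φ (u (1 / ε n) * y (ε n) * u (-(1 / ε n / 2)))) atTop
        (𝓝 (1 + ((2 : ℝ) - 1) • P + ((2 : ℝ)⁻¹ - 1) • T)) := by
      have e1 : ∀ n, Q.φ (u (1 / ε n) * y (ε n) * u (-(1 / ε n / 2))) =
          1 + ((2 : ℝ) - 1) • P + ((2 : ℝ)⁻¹ - 1) • T + ε n • Y := by
        intro n
        rw [map_mul, map_mul, hu, hy, hu]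
        refine sl2_alg hXX hXY hYX hPX ?_ two_ne_zero
        rw [one_div, inv_mul_cancel₀ (hε0 n)]
        norm_num
      simp only [e1]
      have h2 := (hε.smul_const Y).const_add (1 + ((2 : ℝ) - 1) • P + ((2 : ℝ)⁻¹ - 1) • T)
      rwa [zero_smul, add_zero] at h2
    obtain ⟨h, hh⟩ := Q.emb.isClosed_range.mem_of_tendsto hlim (Eventually.of_forall fun n => ⟨_, rfl⟩)
    have hhξ : σ (π h) ξ = ξ := by
      refine mautner_unip hξ (s := fun n => π (u (1 / ε n))) (g := fun n => π (y (ε n))) (t := fun n => π (u (-(1 / ε n / 2))))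
        (fun n => huN _) (fun n => huN _) ?_ ?_
      · have := hπ1 (hy1 hε)
        rwa [map_one] at this
      · have h2 : Tendsto (fun n => u (1 / ε n) * y (ε n) * u (-(1 / ε n / 2))) atTop (𝓝 h) := by
          refine Q.tendsto ?_
          rw [hh]
          exact hlim
        have h3 := hπ1 h2
        refine h3.congr fun n => ?_
        rw [map_mul, map_mul]
    -- conjugation by `h`
    have hhY : Q.φ h * Y = (2 : ℝ)⁻¹ • Y := by
      rw [hh, Matrix.add_mul, Matrix.add_mul, Matrix.one_mul, smul_mul_assoc, smul_mul_assoc, hPY, hTY, smul_zero, add_zero]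
      module
    have hYh : Y * Q.φ h = (2 : ℝ) • Y := by
      rw [hh, Matrix.mul_add, Matrix.mul_add, Matrix.mul_one, mul_smul_comm, mul_smul_comm, hYP, hYT, smul_zero, add_zero]
      module
    have hYh' : Y * Q.φ h⁻¹ = (2 : ℝ)⁻¹ • Y := by
      have h2 : (Y * Q.φ h) * Q.φ h⁻¹ = (2 : ℝ) • (Y * Q.φ h⁻¹) := by
        rw [hYh, smul_mul_assoc]
      rw [Matrix.mul_assoc, Q.mul_inv, Matrix.mul_one] at h2
      nth_rewrite 2 [h2]
      rw [smul_smul, inv_mul_cancel₀ (two_ne_zero), one_smul]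
    have hconj : ∀ c : ℝ, h * y c * h⁻¹ = y (4⁻¹ * c) := by
      intro c
      apply Q.inj
      rw [map_mul, map_mul, hy, hy, Matrix.mul_add, Matrix.add_mul, Matrix.mul_one, Q.mul_inv, mul_smul_comm, hhY,
        smul_mul_assoc, smul_mul_assoc, hYh', smul_smul, smul_smul]
      congr 2
      ring
    have hpow : ∀ n : ℕ, h ^ n * y 1 * (h ^ n)⁻¹ = y (4⁻¹ ^ n) := by
      intro n
      induction n with
      | zero =>
        rw [pow_zero, pow_zero, one_mul, inv_one, mul_one]
      | succ n ih =>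
        have e1 : h ^ (n + 1) * y 1 * (h ^ (n + 1))⁻¹ = h * (h ^ n * y 1 * (h ^ n)⁻¹) * h⁻¹ := by
          rw [pow_succ', _root_.mul_inv_rev]
          group
        rw [e1, ih, hconj, pow_succ']
    have hs' : s = y 1 := by
      apply Q.inj
      rw [hs, hy, one_smul, hY, he]
    show σ (π s) ξ = ξ
    rw [hs']
    refine Pool.Agent.Helper96.FR.mautner hξ (a := (π h)⁻¹) ?_ ?_
    · have h2 : Tendsto (fun n : ℕ => (4 : ℝ)⁻¹ ^ n) atTop (𝓝 0) :=
        tendsto_pow_atTop_nhds_zero_of_lt_one (by norm_num) (by norm_num)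
      have h3 := hπ1 (hy1 h2)
      rw [map_one] at h3
      refine h3.congr fun n => ?_
      rw [← hpow, map_mul, map_mul, map_inv, map_pow, inv_pow, inv_inv]
    · rw [map_inv]
      show (σ (π h)).symm ξ = ξ
      rw [LinearIsometryEquiv.symm_apply_eq, hhξ]
  obtain ⟨s, rfl⟩ := QuotientGroup.mk_surjective g
  have h2 : s ∈ Q.Eg := by
    rw [gen]
    exact Subgroup.mem_top s
  exact hN h2

end Pool.Agent.Helper42.TZ
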