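import Pool.Agent.Helper42.TZ.C.Kap
import Pool.Agent.Helper42.TZ.C.Mau
import Pool.Agent.Helper43.TZ.Src

/-!
# Project TZ (MP_0f6f3f_an): concrete sources

`CS K m S S'`: `S` is `SL(m + 1, K)`, `S'` is `SL(m, K)`, `j` the block embedding, `D t` the diagonal element `(e^t, ..., e^t; e^(-m t))`. `CS.exists_dir`: the direction `t → ∞` in `S ⧸ centre`.
-/

set_option autoImplicit false
set_option linter.unusedSectionVars false

open Matrix Topology Filter MeasureTheory

namespace Pool.Agent.Helper42.TZ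

open Pool.Agent.Helper43.TZ
open Pool.Agent.Helper96.FR (contVec)

/-- concrete sources -/
structure CS (K : Type) [NormedDivisionRing K] [NormedAlgebra ℝ K] [FiniteDimensional ℝ K] (m : ℕ) (S S' : Type)
    [Group S] [TopologicalSpace S] [Group S'] [TopologicalSpace S'] where
  Q : SG K (m + 1) S
  Qm : SG K m S'
  gen : Q.Eg = ⊤
  /-- the block embedding -/
  j : S' →* S
  j1 : ∀ s (i i' : Fin m), Q.φ (j s) i.castSucc i'.castSucc = Qm.φ s i i'
  j2 : ∀ s (i : Fin m), Q.φ (j s) i.castSucc (Fin.last m) = 0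
  j3 : ∀ s (i : Fin m), Q.φ (j s) (Fin.last m) i.castSucc = 0
  j4 : ∀ s, Q.φ (j s) (Fin.last m) (Fin.last m) = 1
  /-- the diagonal elements -/
  D : ℝ → S
  hD : ∀ t, Q.φ (D t) = diagonal fun i => algebraMap ℝ K (if i = Fin.last m then Real.exp (-(m * t)) else Real.exp t)

variable {K : Type} [NormedDivisionRing K] [NormedAlgebra ℝ K] [FiniteDimensional ℝ K] {m : ℕ}
variable {S S' : Type} [Group S] [TopologicalSpace S] [Group S'] [TopologicalSpace S'] (C : CS K m S S')

/-- the weights -/
noncomputable def wt (m : ℕ) (t : ℝ) (i : Fin (m + 1)) : ℝ := if i = Fin.last m then Real.exp (-(m * t)) else Real.exp t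

theorem wt_last (t : ℝ) : wt m t (Fin.last m) = Real.exp (-(m * t)) := by
  unfold wt
  rw [if_pos rfl]

theorem wt_castSucc (t : ℝ) (i : Fin m) : wt m t i.castSucc = Real.exp t := by
  unfold wt
  rw [if_neg (Fin.castSucc_lt_last i).ne]

theorem wt_pos (t : ℝ) (i : Fin (m + 1)) : 0 < wt m t i := by
  unfold wt
  split_ifs <;> positivity

theorem wt_add (s t : ℝ) (i : Fin (m + 1)) : wt m (s + t) i = wt m s i * wt m t i := by
  unfold wt
  split_ifs
  · rw [← Real.exp_add]
    congr 1
    ring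
  · rw [Real.exp_add]

theorem wt_neg (t : ℝ) (i : Fin (m + 1)) : wt m (-t) i = (wt m t i)⁻¹ := by
  unfold wt
  split_ifs
  · rw [← Real.exp_neg]
    congr 1
    ring
  · rw [Real.exp_neg]

theorem CS.hD' (t : ℝ) : C.Q.φ (C.D t) = diagonal fun i => algebraMap ℝ K (wt m t i) := C.hD t

theorem CS.D_add (s t : ℝ) : C.D (s + t) = C.D s * C.D t := by
  apply C.Q.inj
  rw [map_mul, C.hD', C.hD', C.hD', diagonal_mul_diagonal]
  congr 1
  funext i
  rw [wt_add, map_mul]

theorem CS.D_zero : C.D 0 = 1 := by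
  have h := C.D_add 0 0
  rw [add_zero] at h
  exact left_eq_mul.1 h

theorem CS.D_neg (t : ℝ) : C.D (-t) = (C.D t)⁻¹ := by
  have h := C.D_add (-t) t
  rw [neg_add_cancel, C.D_zero] at h
  exact eq_inv_of_mul_eq_one_left h.symm

/-- conjugation by the diagonal elements -/
theorem CS.conj (t : ℝ) (s : S) (p q : Fin (m + 1)) :
    C.Q.φ (C.D t * s * (C.D t)⁻¹) p q = (wt m t p * (wt m t q)⁻¹) • C.Q.φ s p q := by
  rw [← C.D_neg, map_mul, map_mul, C.hD', C.hD', mul_diagonal, diagonal_mul, wt_neg, ← Algebra.commutes, ← mul_assoc,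
    ← map_mul, Algebra.smul_def, mul_comm (wt m t q)⁻¹]

theorem CS.j_comm (s : S') (t : ℝ) : C.j s * C.D t = C.D t * C.j s := by
  apply C.Q.inj
  rw [map_mul, map_mul, C.hD']
  refine Matrix.ext fun p q => ?_
  rw [mul_diagonal, diagonal_mul]
  induction p using Fin.lastCases with
  | last =>
    induction q using Fin.lastCases with
    | last => exact (Algebra.commutes _ _).symm
    | cast q => rw [C.j3, zero_mul, mul_zero]
  | cast p =>
    induction q using Fin.lastCases with
    | last => rw [C.j2, zero_mul, mul_zero]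
    | cast q =>
      rw [wt_castSucc, wt_castSucc]
      exact (Algebra.commutes _ _).symm

theorem CS.continuous_j : Continuous C.j := by
  rw [C.Q.emb.isInducing.continuous_iff]
  refine continuous_matrix fun p q => ?_
  show Continuous fun s => C.Q.φ (C.j s) p q
  induction p using Fin.lastCases with
  | last =>
    induction q using Fin.lastCases with
    | last =>
      simp only [C.j4]
      exact continuous_const
    | cast q =>
      simp only [C.j3]
      exact continuous_const
  | cast p =>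
    induction q using Fin.lastCases with
    | last =>
      simp only [C.j2]
      exact continuous_const
    | cast q =>
      simp only [C.j1]
      exact C.Qm.continuous_elem p q

section lim

variable [IsTopologicalGroup S]

theorem mk_conj (a s : S) : ((a : S) : S ⧸ Subgroup.center S) * ((s : S) : S ⧸ Subgroup.center S) * ((a : S) : S ⧸ Subgroup.center S)⁻¹ =
    ((a * s * a⁻¹ : S) : S ⧸ Subgroup.center S) := rfl

/-- the contracted elements -/
theorem CS.contr (hm : 1 ≤ m) {t : ℕ → ℝ} {l : Filter ℕ} [l.NeBot] (ht : Tendsto t l atTop) {s : S}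
    (h : Tendsto (fun n => ((C.D (t n) * s * (C.D (t n))⁻¹ : S) : S ⧸ Subgroup.center S)) l (𝓝 1)) :
    ∃ c : K, (∀ y, c * y = y * c) ∧ (∀ i i' : Fin m, C.Q.φ s i.castSucc i'.castSucc = if i = i' then c else 0) ∧
      ∀ i : Fin m, C.Q.φ s i.castSucc (Fin.last m) = 0 := by
  have hnorm : ∀ p q, Tendsto (fun n => ‖C.Q.φ (C.D (t n) * s * (C.D (t n))⁻¹) p q‖) l (𝓝 ‖C.Q.φ 1 p q‖) := fun p q =>
    tendsto_lift (h := fun s => ‖C.Q.φ s p q‖) (C.Q.continuous_elem p q).norm (fun s z hz => C.Q.norm_center hm p q s hz) h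
  have hcomm : ∀ p q y, Tendsto (fun n => ‖C.Q.φ (C.D (t n) * s * (C.D (t n))⁻¹) p p * y - y * C.Q.φ (C.D (t n) * s * (C.D (t n))⁻¹) q q‖)
      l (𝓝 ‖C.Q.φ 1 p p * y - y * C.Q.φ 1 q q‖) := fun p q y =>
    tendsto_lift (h := fun s => ‖C.Q.φ s p p * y - y * C.Q.φ s q q‖)
      (((C.Q.continuous_elem p p).mul continuous_const).sub (continuous_const.mul (C.Q.continuous_elem q q))).norm
      (fun s z hz => C.Q.comm_center hm p q y s hz) h
  have h1 : ∀ i i' : Fin m, i ≠ i' → C.Q.φ s i.castSucc i'.castSucc = 0 := by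
    intro i i' hii
    have h2 := hnorm i.castSucc i'.castSucc
    rw [map_one, Matrix.one_apply_ne (fun h => hii (Fin.castSucc_injective m h)), norm_zero] at h2
    simp only [C.conj, wt_castSucc, mul_inv_cancel₀ (Real.exp_pos _).ne', one_smul] at h2
    exact norm_eq_zero.1 (tendsto_nhds_unique tendsto_const_nhds h2)
  have h2 : ∀ i : Fin m, C.Q.φ s i.castSucc (Fin.last m) = 0 := by
    intro i
    by_contra hne
    have h3 := hnorm i.castSucc (Fin.last m)
    rw [map_one, Matrix.one_apply_ne (Fin.castSucc_lt_last i).ne, norm_zero] at h3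
    simp only [C.conj, wt_castSucc, wt_last, norm_smul] at h3
    have h4 : Tendsto (fun n => ‖Real.exp (t n) * (Real.exp (-(m * t n)))⁻¹‖ * ‖C.Q.φ s i.castSucc (Fin.last m)‖) l atTop := by
      refine Tendsto.atTop_mul_const (norm_pos_iff.2 hne) ?_
      have h5 : Tendsto (fun n => Real.exp (((m : ℝ) + 1) * t n)) l atTop :=
        Real.tendsto_exp_atTop.comp (ht.const_mul_atTop (by positivity))
      refine h5.congr fun n => ?_
      rw [norm_mul, norm_inv, Real.norm_of_nonneg (Real.exp_pos _).le, Real.norm_of_nonneg (Real.exp_pos _).le, ← Real.exp_neg,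
        neg_neg, ← Real.exp_add]
      congr 1
      ring
    exact not_tendsto_nhds_of_tendsto_atTop h4 0 h3
  have h3 : ∀ (i i' : Fin m) (y : K), C.Q.φ s i.castSucc i.castSucc * y = y * C.Q.φ s i'.castSucc i'.castSucc := by
    intro i i' y
    have h4 := hcomm i.castSucc i'.castSucc y
    rw [map_one, Matrix.one_apply_eq, Matrix.one_apply_eq, one_mul, mul_one, sub_self, norm_zero] at h4
    simp only [C.conj, wt_castSucc, mul_inv_cancel₀ (Real.exp_pos _).ne', one_smul] at h4
    exact sub_eq_zero.1 (norm_eq_zero.1 (tendsto_nhds_unique tendsto_const_nhds h4))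
  refine ⟨C.Q.φ s (Fin.castSucc ⟨0, hm⟩) (Fin.castSucc ⟨0, hm⟩), fun y => h3 _ _ y, fun i i' => ?_, h2⟩
  split_ifs with hii
  · subst hii
    have := h3 i ⟨0, hm⟩ 1
    rwa [mul_one, one_mul] at this
  · exact h1 i i' hii

theorem CS.tendsto_conj {t : ℕ → ℝ} {l : Filter ℕ} (ht : Tendsto t l atTop) {s : S} {f : Fin (m + 1) → K} (hf : f (Fin.last m) = 0)
    (hs : C.Q.φ s = 1 + vecMulVec (Pi.single (Fin.last m) 1) f) :
    Tendsto (fun n => ((C.D (t n) * s * (C.D (t n))⁻¹ : S) : S ⧸ Subgroup.center S)) l (𝓝 1) := by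
  have h1 : Tendsto (fun n => C.D (t n) * s * (C.D (t n))⁻¹) l (𝓝 1) := by
    refine C.Q.tendsto ?_
    rw [map_one]
    have h2 : Tendsto (fun n => Real.exp (-(((m : ℝ) + 1) * t n))) l (𝓝 0) :=
      Real.tendsto_exp_neg_atTop_nhds_zero.comp (ht.const_mul_atTop (by positivity))
    have h3 := (h2.smul_const (vecMulVec (Pi.single (Fin.last m) (1 : K)) f)).const_add 1
    rw [zero_smul, add_zero] at h3
    refine h3.congr fun n => ?_
    refine Matrix.ext fun p q => ?_
    rw [C.conj, hs, Matrix.add_apply, Matrix.add_apply, Matrix.smul_apply, vecMulVec_apply, smul_add]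
    induction p using Fin.lastCases with
    | last =>
      rw [Pi.single_eq_same, one_mul]
      induction q using Fin.lastCases with
      | last => rw [hf, smul_zero, smul_zero, mul_inv_cancel₀ (wt_pos _ _).ne', one_smul]
      | cast q =>
        rw [Matrix.one_apply_ne (Fin.castSucc_lt_last q).ne', smul_zero, wt_last, wt_castSucc, ← Real.exp_neg, ← Real.exp_add]
        congr 3
        ring
    | cast p =>
      have h0 : (Pi.single (Fin.last m) 1 : Fin (m + 1) → K) p.castSucc = 0 := Pi.single_eq_of_ne (Fin.castSucc_lt_last p).ne _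
      rw [h0, zero_mul, smul_zero, smul_zero, add_zero, add_zero]
      by_cases hpq : p.castSucc = q
      · rw [hpq, mul_inv_cancel₀ (wt_pos _ _).ne', one_smul]
      · rw [Matrix.one_apply_ne hpq, smul_zero]
  exact (QuotientGroup.continuous_mk.tendsto 1).comp h1

end lim

theorem polish_of (Q : SG K m S) : PolishSpace S := by
  have h1 : CompleteSpace K := FiniteDimensional.complete ℝ K
  have h2 : ProperSpace K := FiniteDimensional.proper ℝ K
  have h3 : PolishSpace K := inferInstance
  have h4 : PolishSpace (Matrix (Fin m) (Fin m) K) := inferInstanceAs (PolishSpace (Fin m → Fin m → K))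
  exact Q.emb.polishSpace

/-- the direction `t → ∞` -/
theorem CS.exists_dir [IsTopologicalGroup S] [IsTopologicalGroup S'] [T2Space (S ⧸ Subgroup.center S)] [SecondCountableTopology S]
    (hm : 2 ≤ m) (F : Subgroup (S ⧸ Subgroup.center S)) (hF : ∀ x ∈ F, ∃ t : ℝ, x = ((C.D t : S) : S ⧸ Subgroup.center S))
    (par : S ⧸ Subgroup.center S → ℝ) (hpar : ∀ t, par ((C.D t : S) : S ⧸ Subgroup.center S) = t) :
    Nonempty (Dir (S ⧸ Subgroup.center S) F par (Module.finrank ℝ K * (m * (m - 1)))) := by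
  classical
  have hm0 : 0 < m := by omega
  -- the boundary map
  let κ : S ⧸ Subgroup.center S → C.Qm.Om := fun g => C.Q.kapS C.Qm hm0 (Quotient.out g)
  have hκ : ∀ s : S, κ (s : S ⧸ Subgroup.center S) = C.Q.kapS C.Qm hm0 s := by
    intro s
    obtain ⟨z, hz⟩ := QuotientGroup.mk_out_eq_mul (Subgroup.center S) s
    show C.Q.kapS C.Qm hm0 (Quotient.out (s : S ⧸ Subgroup.center S)) = _
    have hz' : Quotient.out (s : S ⧸ Subgroup.center S) = s * (z : S) := hz
    rw [hz', C.Q.kapS_center C.Qm hm0 s z.2]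
  obtain ⟨fam, hfam, hv⟩ := C.Qm.fam hm0
  refine ⟨{
    S' := S'
    ι := (QuotientGroup.mk' (Subgroup.center S)).comp C.j
    ιc := QuotientGroup.continuous_mk.comp C.continuous_j
    cm := ?_
    Ω := C.Qm.Om
    κ := κ
    κm := ?_
    κs := ?_
    κq := ?_
    maut := ?_
    fam := fam
    famd := hfam
    mult := m - 1
    pp := ?_ }⟩
  · intro s f hf
    obtain ⟨t, rfl⟩ := hF f hf
    show ((C.j s * C.D t : S) : S ⧸ Subgroup.center S) = ((C.D t * C.j s : S) : S ⧸ Subgroup.center S)
    rw [C.j_comm]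
  · intro D hD
    have : PolishSpace S := polish_of C.Q
    borelize S
    borelize (S ⧸ Subgroup.center S)
    have hmk : Measurable ((↑) : S → S ⧸ Subgroup.center S) := QuotientGroup.continuous_mk.measurable
    rw [← hmk.measurableSet_preimage_iff_of_surjective QuotientGroup.mk_surjective]
    have e : ((↑) : S → S ⧸ Subgroup.center S) ⁻¹' (κ ⁻¹' D) = C.Q.kapS C.Qm hm0 ⁻¹' D := by
      ext s
      show κ (s : S ⧸ Subgroup.center S) ∈ D ↔ _
      rw [hκ]
      exact Iff.rfl
    rw [e]
    have h1 := C.Q.measurable_kapS C.Qm hm0 hD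
    exact h1
  · intro s g
    obtain ⟨g, rfl⟩ := QuotientGroup.mk_surjective g
    show κ ((C.j s * g : S) : S ⧸ Subgroup.center S) = s • κ (g : S ⧸ Subgroup.center S)
    rw [hκ, hκ]
    exact C.Q.kapS_levi C.Qm hm0 (fun i i' => C.j1 s i i') (fun i => C.j2 s i) g
  · intro b l _ hb hbp q hq g
    obtain ⟨q, rfl⟩ := QuotientGroup.mk_surjective q
    obtain ⟨g, rfl⟩ := QuotientGroup.mk_surjective g
    choose t ht using fun n => hF (b n) (hb n)
    have htp : Tendsto t l atTop := hbp.congr fun n => by rw [ht n, hpar]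
    have h1 : Tendsto (fun n => ((C.D (t n) * q * (C.D (t n))⁻¹ : S) : S ⧸ Subgroup.center S)) l (𝓝 1) :=
      hq.congr fun n => by
        rw [ht n]
        rfl
    obtain ⟨c, hc, h2, h3⟩ := C.contr (by omega) htp h1
    show κ ((q * g : S) : S ⧸ Subgroup.center S) = κ (g : S ⧸ Subgroup.center S)
    rw [hκ, hκ]
    exact C.Q.kapS_upper C.Qm hm0 hc h2 h3 g
  · intro b l _ hb hbp K' _ _ σ ξ hξ h g
    refine C.Q.mautner C.gen σ hξ (fun s f hf hs => h _ ?_) g
    choose t ht using fun n => hF (b n) (hb n)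
    have htp : Tendsto t l atTop := hbp.congr fun n => by rw [ht n, hpar]
    refine (C.tendsto_conj htp hf hs).congr fun n => ?_
    rw [ht n]
    rfl
  · intro t ht k
    obtain ⟨v, hv⟩ := hv t ht
    obtain ⟨g, D, hg, hD, hinv, h1, h2⟩ := C.Qm.pingpong hm (N := Subgroup.normalClosure {t}) Subgroup.normalClosure_normal
      (Subgroup.subset_normalClosure (Set.mem_singleton t)) hv k
    have hcard : ∀ (p : Fin k → Prop) (n : ℕ), (∀ s : Finset (Fin k), (∀ l ∈ s, p l) → s.card ≤ n) → {l | p l}.ncard ≤ n := by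
      intro p n hs
      have e : {l | p l} = ((Finset.univ.filter p : Finset (Fin k)) : Set (Fin k)) := by
        ext l
        simp
      rw [e, Set.ncard_coe_finset]
      exact hs _ fun l hl => (Finset.mem_filter.1 hl).2
    let D' : Fin k → Set C.Qm.Om := fun i => {ω | ∃ x : NZ K m, C.Qm.ln x = ω ∧ x.1 ∈ D i}
    have hD' : ∀ i (x : NZ K m), C.Qm.ln x ∈ D' i ↔ x.1 ∈ D i := by
      intro i x
      constructor
      · rintro ⟨y, hy, hyD⟩
        obtain ⟨c, hc⟩ := C.Qm.ln_eq.1 hy
        rw [hc] at hyD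
        exact (hinv i x.1 c (line_ne hc)).1 hyD
      · intro h
        exact ⟨x, rfl, h⟩
    refine ⟨g, D', hg, fun i => ?_, fun ω => ?_, fun ω => ?_⟩
    · rw [SG.measurableSet]
      borelize (NZ K m)
      have e : C.Qm.ln ⁻¹' (D' i) = Subtype.val ⁻¹' (D i) := by
        ext x
        exact hD' i x
      rw [e]
      exact ((hD i).preimage continuous_subtype_val).measurableSet
    · obtain ⟨x, rfl⟩ := C.Qm.ln_surj ω
      exact hcard _ _ fun s hs => h1 x.1 x.2 s fun i hi => (hD' i x).1 (hs i hi)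
    · obtain ⟨x, rfl⟩ := C.Qm.ln_surj ω
      refine hcard _ _ fun s hs => ?_
      have h3 : s.card ≤ 1 := by
        rw [Finset.card_le_one]
        intro i hi j hj
        have hi' := hs i hi
        have hj' := hs j hj
        rw [SG.smul_ln, hD'] at hi' hj'
        exact h2 x.1 x.2 i j hi' hj'
      omega

end Pool.Agent.Helper42.TZ
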