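import Pool.Agent.Helper42.TZ.C.Tr

/-!
# Project TZ (MP_0f6f3f_an), block C2: Gaussian elimination over a division ring

`Q : SG K (m + 1) S` (`Helper42/TZ/SG.lean`: closed group of matrices with all transvections `1 + vecMulVec v f`, `f ⬝ᵥ v = 0`). `Q.Eg` (Tr.lean) the subgroup generated by the transvections (`SG.tv_mem`). `SG.elim`: every `s` is, modulo `Q.Eg`, diagonal with entries `1, ..., 1, d`.
PROOF. Induction: after `r` steps `φ (e * s)` fixes the standard vectors `e_0, ..., e_(r-1)` (its columns). Step, `r < m`: `w = φ(e s) e_r`. Transvections `1 + vecMulVec v f` with `f_p = 0` for `p < r` fix `e_p`, `p < r`. `w` is not in the span of `e_0, ..., e_(r-1)` (`φ(e s)` is invertible), so `w_q ≠ 0` for some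
`q ≥ r`. If `w_q = 0` for all `q > r`, apply first `1 + vecMulVec e_m e_r` (row vector `e_r`): now `w_m ≠ 0`. So let `w_q ≠ 0`, `q > r`. Take `f = e_r + (1 - w_r) w_q⁻¹ e_q` and `v = e_r - w`: `f w = 1`, `f e_r = 1`, `f v = 0`, `(1 + vecMulVec v f) w = w + v = e_r` (`tv_mulVec` in SG.lean).
Last step `r = m`: `w = φ(e s) e_m`, `d = w_m ≠ 0`, apply `1 + vecMulVec v f`, `v = d e_m - w` (in the sense `v_p = -w_p`, `p < m`, `v_m = 0`), `f = d⁻¹ e_m`: `f w = 1`, `f v = 0`, the result is `w + v = rs e_m d`.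
-/

set_option autoImplicit false
set_option linter.unusedSectionVars false

open Matrix Topology

namespace Pool.Agent.Helper42.TZ

variable {K : Type} [NormedDivisionRing K] [NormedAlgebra ℝ K] [FiniteDimensional ℝ K] {m : ℕ}
variable {S : Type} [Group S] [TopologicalSpace S]

private theorem col_c4 (A : Matrix (Fin m) (Fin m) K) (i j : Fin m) :
    (A *ᵥ (Pi.single j 1 : Fin m → K)) i = A i j := by
  rw [Matrix.mulVec_single_one]
  rfl

private theorem fix_c4 (A : Matrix (Fin m) (Fin m) K) (w : Fin m → K) (r : ℕ)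
    (hA : ∀ p : Fin m, (p : ℕ) < r → A *ᵥ (Pi.single p 1 : Fin m → K) = Pi.single p 1)
    (hw : ∀ q : Fin m, r ≤ (q : ℕ) → w q = 0) : A *ᵥ w = w := by
  funext i
  have h1 : (A *ᵥ w) i = ∑ j, A i j * w j := rfl
  rw [h1]
  have h2 : ∀ j : Fin m, A i j * w j = (Pi.single j 1 : Fin m → K) i * w j := by
    intro j
    rcases lt_or_ge (j : ℕ) r with hj | hj
    · rw [← col_c4 A i j, hA j hj]
    · rw [hw j hj, mul_zero, mul_zero]
  rw [Finset.sum_congr rfl fun j _ => h2 j, Finset.sum_eq_single i]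
  · rw [Pi.single_eq_same, one_mul]
  · intro j _ hj
    rw [Pi.single_eq_of_ne (Ne.symm hj), zero_mul]
  · intro h
    exact absurd (Finset.mem_univ i) h

/-- there is a nonzero coordinate `≥ r` -/
private theorem coord_c4 (Q : SG K m S) (g : S) (r : Fin m)
    (hA : ∀ p : Fin m, (p : ℕ) < r → Q.φ g *ᵥ (Pi.single p 1 : Fin m → K) = Pi.single p 1) :
    ∃ q : Fin m, (r : ℕ) ≤ q ∧ (Q.φ g *ᵥ (Pi.single r 1 : Fin m → K)) q ≠ 0 := by
  by_contra hc
  push Not at hc
  have h1 := fix_c4 (Q.φ g) (Q.φ g *ᵥ (Pi.single r 1 : Fin m → K)) r hA hc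
  have h2 := congrArg (fun x => Q.φ g⁻¹ *ᵥ x) h1
  simp only [Matrix.mulVec_mulVec, ← Matrix.mul_assoc] at h2
  rw [Q.inv_mul, Matrix.one_mul, Matrix.one_mulVec] at h2
  have h3 := hc r le_rfl
  rw [h2, Pi.single_eq_same] at h3
  exact one_ne_zero h3

/-- one more transvection -/
private theorem more_c4 (Q : SG K m S) (s : S) (r : ℕ) {e : S} (he : e ∈ Q.Eg)
    (hA : ∀ p : Fin m, (p : ℕ) < r → Q.φ (e * s) *ᵥ (Pi.single p 1 : Fin m → K) = Pi.single p 1)
    (v f : Fin m → K) (hfv : f ⬝ᵥ v = 0) (hf : ∀ p : Fin m, (p : ℕ) < r → f p = 0) :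
    ∃ e' ∈ Q.Eg, (∀ p : Fin m, (p : ℕ) < r → Q.φ (e' * s) *ᵥ (Pi.single p 1 : Fin m → K) = Pi.single p 1) ∧
      ∀ x, Q.φ (e' * s) *ᵥ x = Q.φ (e * s) *ᵥ x + rs v (f ⬝ᵥ (Q.φ (e * s) *ᵥ x)) := by
  obtain ⟨g, hg⟩ := Q.tv v f hfv
  have h1 : ∀ x, Q.φ (g * e * s) *ᵥ x = Q.φ (e * s) *ᵥ x + rs v (f ⬝ᵥ (Q.φ (e * s) *ᵥ x)) := by
    intro x
    rw [mul_assoc, map_mul, ← Matrix.mulVec_mulVec, hg, tv_mulVec]
  refine ⟨g * e, Q.Eg.mul_mem (Q.tv_mem hfv hg) he, fun p hp => ?_, h1⟩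
  rw [h1, hA p hp, dotProduct_single_one, hf p hp, rs_zero, add_zero]

private theorem step_c4 (Q : SG K (m + 1) S) (s : S) (r : ℕ) (hr : r ≤ m) :
    ∃ e ∈ Q.Eg, ∀ p : Fin (m + 1), (p : ℕ) < r →
      Q.φ (e * s) *ᵥ (Pi.single p 1 : Fin (m + 1) → K) = Pi.single p 1 := by
  induction r with
  | zero => exact ⟨1, Q.Eg.one_mem, fun p hp => absurd hp (Nat.not_lt_zero _)⟩
  | succ r ih =>
    obtain ⟨e, he, hA⟩ := ih (by omega)
    obtain ⟨k, hk⟩ : ∃ k : Fin (m + 1), (k : ℕ) = r := ⟨⟨r, by omega⟩, rfl⟩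
    have hkl : k ≠ Fin.last m := by
      intro h
      rw [h, Fin.val_last] at hk
      omega
    -- a coordinate beyond `r`
    obtain ⟨e1, he1, hA1, q, hq, hwq⟩ : ∃ e ∈ Q.Eg, (∀ p : Fin (m + 1), (p : ℕ) < r →
        Q.φ (e * s) *ᵥ (Pi.single p 1 : Fin (m + 1) → K) = Pi.single p 1) ∧
        ∃ q : Fin (m + 1), r < (q : ℕ) ∧ (Q.φ (e * s) *ᵥ (Pi.single k 1 : Fin (m + 1) → K)) q ≠ 0 := by
      by_cases hex : ∃ q : Fin (m + 1), r < (q : ℕ) ∧ (Q.φ (e * s) *ᵥ (Pi.single k 1 : Fin (m + 1) → K)) q ≠ 0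
      · exact ⟨e, he, hA, hex⟩
      · push Not at hex
        obtain ⟨q, hq, hwq⟩ := coord_c4 Q (e * s) k (by rw [hk]; exact hA)
        have hqk : q = k := by
          by_contra hne
          have h1 : (q : ℕ) ≠ k := fun h => hne (Fin.ext h)
          exact hwq (hex q (by omega))
        rw [hqk] at hwq
        obtain ⟨e', he', hA', hx⟩ := more_c4 Q s r he hA (Pi.single (Fin.last m) 1) (Pi.single k 1)
          (by rw [single_one_dotProduct, Pi.single_eq_of_ne hkl])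
          (fun p hp => Pi.single_eq_of_ne (by
            intro h
            rw [h, hk] at hp
            exact lt_irrefl _ hp) _)
        refine ⟨e', he', hA', Fin.last m, by rw [Fin.val_last]; omega, ?_⟩
        rw [hx, single_one_dotProduct, Pi.add_apply, hex (Fin.last m) (by rw [Fin.val_last]; omega), zero_add]
        unfold rs
        rw [Pi.single_eq_same, one_mul]
        exact hwq
    obtain ⟨w, hw⟩ : ∃ w, w = Q.φ (e1 * s) *ᵥ (Pi.single k 1 : Fin (m + 1) → K) := ⟨_, rfl⟩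
    rw [← hw] at hwq
    have hqk : q ≠ k := by
      intro h
      rw [h] at hq
      omega
    obtain ⟨f, hf⟩ : ∃ f : Fin (m + 1) → K, f = Pi.single k 1 + ((1 - w k) * (w q)⁻¹) • Pi.single q 1 := ⟨_, rfl⟩
    have hfx : ∀ x : Fin (m + 1) → K, f ⬝ᵥ x = x k + (1 - w k) * (w q)⁻¹ * x q := by
      intro x
      rw [hf, add_dotProduct, smul_dotProduct, single_one_dotProduct, single_one_dotProduct, smul_eq_mul]
    have hfw : f ⬝ᵥ w = 1 := by
      rw [hfx, mul_assoc, inv_mul_cancel₀ hwq, mul_one]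
      abel
    have hfe : f ⬝ᵥ (Pi.single k 1 : Fin (m + 1) → K) = 1 := by
      rw [hfx, Pi.single_eq_same, Pi.single_eq_of_ne hqk, mul_zero, add_zero]
    obtain ⟨e', he', hA', hx⟩ := more_c4 Q s r he1 hA1 (Pi.single k 1 - w) f
      (by rw [dotProduct_sub, hfe, hfw, sub_self])
      (fun p hp => by
        have h1 : p ≠ k := by
          intro h
          rw [h] at hp
          omega
        have h2 : p ≠ q := by
          intro h
          rw [h] at hp
          omega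
        rw [hf, Pi.add_apply, Pi.smul_apply, Pi.single_eq_of_ne h1, Pi.single_eq_of_ne h2, smul_zero,
          add_zero])
    refine ⟨e', he', fun p hp => ?_⟩
    rcases Nat.lt_or_ge (p : ℕ) r with h1 | h1
    · exact hA' p h1
    · have h2 : p = k := Fin.ext (by omega)
      rw [h2, hx, ← hw, hfw, rs_one]
      abel

theorem SG.elim (Q : SG K (m + 1) S) (s : S) :
    ∃ e ∈ Q.Eg, ∃ d : K, Q.φ (e * s) = Matrix.diagonal fun i => if i = Fin.last m then d else 1 := by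
  obtain ⟨e, he, hA⟩ := step_c4 Q s m le_rfl
  obtain ⟨q, hq, hwq⟩ := coord_c4 Q (e * s) (Fin.last m) (by rw [Fin.val_last]; exact hA)
  have hql : q = Fin.last m := by
    apply Fin.ext
    have h1 := q.2
    rw [Fin.val_last] at hq ⊢
    omega
  rw [hql] at hwq
  obtain ⟨w, hw⟩ : ∃ w, w = Q.φ (e * s) *ᵥ (Pi.single (Fin.last m) 1 : Fin (m + 1) → K) := ⟨_, rfl⟩
  rw [← hw] at hwq
  obtain ⟨d, hd⟩ : ∃ d, d = w (Fin.last m) := ⟨_, rfl⟩
  rw [← hd] at hwq
  obtain ⟨f, hf⟩ : ∃ f : Fin (m + 1) → K, f = d⁻¹ • Pi.single (Fin.last m) 1 := ⟨_, rfl⟩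
  have hfx : ∀ x : Fin (m + 1) → K, f ⬝ᵥ x = d⁻¹ * x (Fin.last m) := by
    intro x
    rw [hf, smul_dotProduct, single_one_dotProduct, smul_eq_mul]
  have hfw : f ⬝ᵥ w = 1 := by
    rw [hfx, ← hd, inv_mul_cancel₀ hwq]
  obtain ⟨e', he', hA', hx⟩ := more_c4 Q s m he hA (rs (Pi.single (Fin.last m) 1) d - w) f
    (by
      rw [dotProduct_sub, hfw, dot_rs, hfx, Pi.single_eq_same, mul_one, inv_mul_cancel₀ hwq, sub_self])
    (fun p hp => by
      have h1 : p ≠ Fin.last m := by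
        intro h
        rw [h, Fin.val_last] at hp
        exact lt_irrefl _ hp
      rw [hf, Pi.smul_apply, Pi.single_eq_of_ne h1, smul_zero])
  refine ⟨e', he', d, ?_⟩
  refine Matrix.ext fun i j => ?_
  rw [← col_c4 (Q.φ (e' * s)) i j]
  by_cases hj : j = Fin.last m
  · rw [hj, hx, ← hw, hfw, rs_one]
    have h1 : w + (rs (Pi.single (Fin.last m) 1) d - w) = rs (Pi.single (Fin.last m) 1) d := by abel
    rw [h1]
    by_cases hi : i = Fin.last m
    · rw [hi, Matrix.diagonal_apply_eq, if_pos rfl]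
      unfold rs
      rw [Pi.single_eq_same, one_mul]
    · rw [Matrix.diagonal_apply_ne _ hi]
      unfold rs
      rw [Pi.single_eq_of_ne hi, zero_mul]
  · have hjm : (j : ℕ) < m := by
      have h1 := j.2
      have h2 : (j : ℕ) ≠ m := fun h => hj (Fin.ext (by rw [Fin.val_last]; exact h))
      omega
    rw [hA' j hjm]
    by_cases hi : i = j
    · rw [hi, Matrix.diagonal_apply_eq, if_neg hj, Pi.single_eq_same]
    · rw [Matrix.diagonal_apply_ne _ hi, Pi.single_eq_of_ne hi]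

end Pool.Agent.Helper42.TZ
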