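import Pool.Agent.Helper42.TZ.C.Src
import Pool.Agent.Helper96.HN.Rge

/-!
# Project TZ (MP_0f6f3f_an): the sources `PSL(m + 1, ℂ)`, `PSL(m + 1, ℝ)` and `PSL(m + 1, ℍ)`

`hasSrc_PSL`, `hasSrc_PSLH`.
-/

set_option autoImplicit false
set_option linter.unusedSectionVars false

open Matrix Topology Filter MeasureTheory

namespace Pool.Agent.Helper42.TZ

open Pool.Agent.Helper43.TZ Pool.Agent.Helper43.TA Pool.Agent.Helper96.FR Pool.Agent.Helper84.SPQ
open Pool.Agent.Helper42.HC (qi qc qd qc_qi qd_qi qi_cd)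
open Pool.Agent.Helper96.HN (SLH PSLH val val_rE)

variable {m : ℕ}

theorem eS_inl (i : Fin m) : eS m (Sum.inl i) = i.castSucc := rfl

theorem eS_inr (i : Fin 1) : eS m (Sum.inr i) = Fin.last m := by
  apply Fin.ext
  have : (i : ℕ) = 0 := by omega
  show m + (i : ℕ) = m
  omega

theorem eS_symm_castSucc (i : Fin m) : (eS m).symm i.castSucc = Sum.inl i := by
  rw [← eS_inl, Equiv.symm_apply_apply]

theorem eS_symm_last : (eS m).symm (Fin.last m) = Sum.inr 0 := by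
  rw [← eS_inr (m := m) 0, Equiv.symm_apply_apply]

section bl

variable {R : Type} [Ring R]

/-- the block matrix `diag(A, 1)` -/
def bl1 (A : Matrix (Fin m) (Fin m) R) : Matrix (Fin (m + 1)) (Fin (m + 1)) R := reindex (eS m) (eS m) (fromBlocks A 0 0 1)

theorem bl1_mul (A B : Matrix (Fin m) (Fin m) R) : bl1 (A * B) = bl1 A * bl1 B := by
  unfold bl1
  simp only [reindex_apply]
  rw [submatrix_mul_equiv, fromBlocks_multiply]
  simp

theorem bl1_one : bl1 (1 : Matrix (Fin m) (Fin m) R) = 1 := by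
  unfold bl1
  simp only [reindex_apply]
  rw [fromBlocks_one, submatrix_one_equiv]

theorem bl1_11 (A : Matrix (Fin m) (Fin m) R) (i i' : Fin m) : bl1 A i.castSucc i'.castSucc = A i i' := by
  unfold bl1
  rw [reindex_apply, submatrix_apply, eS_symm_castSucc, eS_symm_castSucc]
  rfl

theorem bl1_12 (A : Matrix (Fin m) (Fin m) R) (i : Fin m) : bl1 A i.castSucc (Fin.last m) = 0 := by
  unfold bl1
  rw [reindex_apply, submatrix_apply, eS_symm_castSucc, eS_symm_last]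
  rfl

theorem bl1_21 (A : Matrix (Fin m) (Fin m) R) (i : Fin m) : bl1 A (Fin.last m) i.castSucc = 0 := by
  unfold bl1
  rw [reindex_apply, submatrix_apply, eS_symm_castSucc, eS_symm_last]
  rfl

theorem bl1_22 (A : Matrix (Fin m) (Fin m) R) : bl1 A (Fin.last m) (Fin.last m) = 1 := by
  unfold bl1
  rw [reindex_apply, submatrix_apply, eS_symm_last, fromBlocks_apply₂₂, one_apply_eq]

end bl

/-- the kernel -/
theorem SG.ker_of {K : Type} [NormedDivisionRing K] [NormedAlgebra ℝ K] [FiniteDimensional ℝ K]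
    {S : Type} [Group S] [TopologicalSpace S] (Q : SG K (m + 1) S) (hm : 1 ≤ m) {z : S} (hz : z ∈ Subgroup.center S)
    {g : Matrix (Fin m) (Fin m) ℝ} (h : ∀ i i' : Fin m, Q.φ z i.castSucc i'.castSucc = algebraMap ℝ K (g i i')) : g = 1 ∨ g = -1 := by
  obtain ⟨c, -, hc1, hc2⟩ := Q.center hm hz
  have h1 : ∀ i i' : Fin m, algebraMap ℝ K (g i i') = if i = i' then c else 0 := by
    intro i i'
    rw [← h, hc2, diagonal_apply]
    by_cases hii : i = i'
    · rw [if_pos hii, if_pos (by rw [hii])]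
    · rw [if_neg hii, if_neg fun h' => hii (Fin.castSucc_injective m h')]
  obtain ⟨t, ht⟩ : ∃ t : ℝ, t = g ⟨0, hm⟩ ⟨0, hm⟩ := ⟨_, rfl⟩
  have h2 : algebraMap ℝ K t = c := by rw [ht, h1, if_pos rfl]
  have h5 : |t| = 1 := by
    rw [← Real.norm_eq_abs, ← norm_algebraMap' K, h2, hc1]
  have h7 : g = diagonal fun _ => t := by
    refine Matrix.ext fun i i' => ?_
    rw [diagonal_apply]
    apply (algebraMap ℝ K).injective
    rw [h1]
    split_ifs
    · exact h2.symm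
    · rw [map_zero]
  rcases eq_or_eq_neg_of_abs_eq h5 with h | h
  · left
    rw [h7, h, diagonal_one]
  · right
    rw [h7, h]
    refine Matrix.ext fun i i' => ?_
    rw [diagonal_apply, Matrix.neg_apply, one_apply]
    split_ifs <;> simp

theorem det_eu (t : ℝ) : ((dgU fun _ : Fin m => eu t : GL (Fin m) ℝ) : Matrix (Fin m) (Fin m) ℝ).det = Real.exp (m * t) := by
  rw [dgU_coe, det_diagonal, Finset.prod_const, Finset.card_univ, Fintype.card_fin]
  show Real.exp t ^ m = _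
  rw [← Real.exp_nat_mul]

section RC

variable (𝕜 : Type) [RCLike 𝕜]

/-- the block embedding of `SL(m)` in `SL(m + 1)` -/
noncomputable def jF (m : ℕ) : SpecialLinearGroup (Fin m) 𝕜 →* SpecialLinearGroup (Fin (m + 1)) 𝕜 where
  toFun A := ⟨bl1 A.1, by
    unfold bl1
    rw [det_reindex_self, det_fromBlocks_zero₁₂, det_one, mul_one, A.2]⟩
  map_one' := Subtype.ext bl1_one
  map_mul' A B := Subtype.ext (bl1_mul A.1 B.1)

theorem bS_entry (A : Matrix (Fin m) (Fin m) ℝ) (c : ℝ) :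
    (bS A c : Matrix (Fin (m + 1)) (Fin (m + 1)) 𝕜) (Fin.last m) (Fin.last m) = algebraMap ℝ 𝕜 c ∧
      (∀ i, (bS A c : Matrix (Fin (m + 1)) (Fin (m + 1)) 𝕜) (Fin.last m) (Fin.castSucc i) = 0) ∧
      (∀ i, (bS A c : Matrix (Fin (m + 1)) (Fin (m + 1)) 𝕜) (Fin.castSucc i) (Fin.last m) = 0) ∧
      ∀ i i', (bS A c : Matrix (Fin (m + 1)) (Fin (m + 1)) 𝕜) (Fin.castSucc i) (Fin.castSucc i') = algebraMap ℝ 𝕜 (A i i') := by
  unfold bS
  refine ⟨?_, fun i => ?_, fun i => ?_, fun i i' => ?_⟩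
  · rw [reindex_apply, submatrix_apply, eS_symm_last, fromBlocks_apply₂₂, diagonal_apply_eq]
  · rw [reindex_apply, submatrix_apply, eS_symm_last, eS_symm_castSucc]
    rfl
  · rw [reindex_apply, submatrix_apply, eS_symm_last, eS_symm_castSucc]
    rfl
  · rw [reindex_apply, submatrix_apply, eS_symm_castSucc, eS_symm_castSucc]
    rfl

theorem bS_eu (t : ℝ) : (bS ((dgU fun _ : Fin m => eu t : GL (Fin m) ℝ) : Matrix (Fin m) (Fin m) ℝ)
    (((dgU fun _ : Fin m => eu t : GL (Fin m) ℝ) : Matrix (Fin m) (Fin m) ℝ).det)⁻¹ : Matrix (Fin (m + 1)) (Fin (m + 1)) 𝕜) =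
      diagonal fun i => algebraMap ℝ 𝕜 (wt m t i) := by
  obtain ⟨h1, h2, h3, h4⟩ := bS_entry 𝕜 ((dgU fun _ : Fin m => eu t : GL (Fin m) ℝ) : Matrix (Fin m) (Fin m) ℝ)
    (((dgU fun _ : Fin m => eu t : GL (Fin m) ℝ) : Matrix (Fin m) (Fin m) ℝ).det)⁻¹
  refine Matrix.ext fun p q => ?_
  induction p using Fin.lastCases with
  | last =>
    induction q using Fin.lastCases with
    | last => rw [h1, diagonal_apply_eq, wt_last, det_eu, Real.exp_neg]
    | cast q => rw [h2, diagonal_apply_ne _ (Fin.castSucc_lt_last q).ne']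
  | cast p =>
    induction q using Fin.lastCases with
    | last => rw [h3, diagonal_apply_ne _ (Fin.castSucc_lt_last p).ne]
    | cast q =>
      rw [h4, dgU_coe, diagonal_apply, diagonal_apply]
      by_cases h : p = q
      · rw [if_pos h, if_pos (by rw [h]), wt_castSucc]
        rfl
      · rw [if_neg h, if_neg fun h' => h (Fin.castSucc_injective m h'), map_zero]

/-- `SL(m + 1, 𝕜)` -/
noncomputable def csF (m : ℕ) : CS 𝕜 m (SpecialLinearGroup (Fin (m + 1)) 𝕜) (SpecialLinearGroup (Fin m) 𝕜) where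
  Q := sgF 𝕜 (m + 1)
  Qm := sgF 𝕜 m
  gen := gen_F 𝕜 m
  j := jF 𝕜 m
  j1 s i i' := bl1_11 s.1 i i'
  j2 s i := bl1_12 s.1 i
  j3 s i := bl1_21 s.1 i
  j4 s := bl1_22 s.1
  D t := fS (dgU fun _ => eu t)
  hD t := bS_eu 𝕜 t

/-- **The sources `PSL(m + 1, 𝕜)`.** -/
theorem hasSrc_PSL (hm : 2 ≤ m) :
    HasSrc (SpecialLinearGroup (Fin (m + 1)) 𝕜 ⧸ Subgroup.center (SpecialLinearGroup (Fin (m + 1)) 𝕜)) (m - 1)
      (Module.finrank ℝ 𝕜 * (m * (m - 1))) := by
  have hT2 : T2Space (SpecialLinearGroup (Fin (m + 1)) 𝕜 ⧸ Subgroup.center (SpecialLinearGroup (Fin (m + 1)) 𝕜)) := by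
    have : IsClosed (Subgroup.center (SpecialLinearGroup (Fin (m + 1)) 𝕜) : Set (SpecialLinearGroup (Fin (m + 1)) 𝕜)) :=
      isCompact_center.isClosed
    have h3 : T3Space (SpecialLinearGroup (Fin (m + 1)) 𝕜 ⧸ Subgroup.center (SpecialLinearGroup (Fin (m + 1)) 𝕜)) :=
      @QuotientGroup.instT3Space _ _ _ _ _ _ this
    infer_instance
  obtain ⟨θ, h1, h2, h3⟩ := exists_theta_F 𝕜 (m + 1)
  refine (csF 𝕜 m).exists_src hm isCompact_center fS fS_cont (tendsto_of_bdd fun K hK => fS_bdd hK) (fun t => rfl)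
    (fun g hg => (csF 𝕜 m).Q.ker_of (by omega) hg fun i i' => (bS_entry 𝕜 _ _).2.2.2 i i') θ h1 h2 fun t => ?_
  apply (csF 𝕜 m).Q.inj
  have e1 : (csF 𝕜 m).Q.φ (θ ((csF 𝕜 m).D t)) = ((csF 𝕜 m).Q.φ ((csF 𝕜 m).D t)⁻¹)ᴴ := h3 _
  rw [e1, ← (csF 𝕜 m).D_neg, (csF 𝕜 m).hD', diagonal_conjTranspose]
  congr 1
  funext i
  show star (algebraMap ℝ 𝕜 (wt m (-t) i)) = algebraMap ℝ 𝕜 (wt m (-t) i)
  exact RCLike.conj_ofReal _

end RC

end Pool.Agent.Helper42.TZ
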