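import Pool.Agent.Helper42.TZ.C.Cen
import Pool.Agent.Helper42.TZ.Om

/-!
# Project TZ (MP_0f6f3f_an): the boundary map

`Q : SG K (m + 1) S`, `Qm : SG K m S'`. `col q s`: the first `m` entries of the `q`-th column of `φ s`. `kapS`: the line of the first nonzero `col q s`.
-/

set_option autoImplicit false
set_option linter.unusedSectionVars false

open Matrix Topology Filter MeasureTheory

namespace Pool.Agent.Helper42.TZ

variable {K : Type} [NormedDivisionRing K] [NormedAlgebra ℝ K] [FiniteDimensional ℝ K] {m : ℕ}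
variable {S S' : Type} [Group S] [TopologicalSpace S] [Group S'] [TopologicalSpace S']

/-- the first `m` entries of the `q`-th column -/
def SG.col (Q : SG K (m + 1) S) (q : Fin (m + 1)) (s : S) : Fin m → K := fun i => Q.φ s i.castSucc q

theorem SG.continuous_col (Q : SG K (m + 1) S) (q : Fin (m + 1)) : Continuous (Q.col q) :=
  continuous_pi fun i => Q.emb.continuous.matrix_elem i.castSucc q

theorem SG.exists_col (Q : SG K (m + 1) S) (hm : 0 < m) (s : S) : ∃ q, Q.col q s ≠ 0 := by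
  by_contra h
  push Not at h
  have h1 := congrFun (congrFun (Q.mul_inv s) (Fin.castSucc ⟨0, hm⟩)) (Fin.castSucc ⟨0, hm⟩)
  rw [Matrix.mul_apply, Matrix.one_apply_eq] at h1
  have h2 : ∀ q, Q.φ s (Fin.castSucc ⟨0, hm⟩) q = 0 := fun q => congrFun (h q) ⟨0, hm⟩
  simp only [h2, zero_mul, Finset.sum_const_zero] at h1
  exact zero_ne_one h1

open Classical in
/-- the set of the nonzero columns -/
noncomputable def SG.cs (Q : SG K (m + 1) S) (s : S) : Finset (Fin (m + 1)) := Finset.univ.filter fun q => Q.col q s ≠ 0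

theorem SG.mem_cs (Q : SG K (m + 1) S) {s : S} {q : Fin (m + 1)} : q ∈ Q.cs s ↔ Q.col q s ≠ 0 := by
  classical
  unfold SG.cs
  simp

theorem SG.cs_nonempty (Q : SG K (m + 1) S) (hm : 0 < m) (s : S) : (Q.cs s).Nonempty := by
  obtain ⟨q, hq⟩ := Q.exists_col hm s
  exact ⟨q, Q.mem_cs.2 hq⟩

/-- the first nonzero column -/
noncomputable def SG.idx (Q : SG K (m + 1) S) (hm : 0 < m) (s : S) : Fin (m + 1) := (Q.cs s).min' (Q.cs_nonempty hm s)

theorem SG.idx_ne (Q : SG K (m + 1) S) (hm : 0 < m) (s : S) : Q.col (Q.idx hm s) s ≠ 0 :=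
  Q.mem_cs.1 (Finset.min'_mem _ _)

theorem SG.idx_eq (Q : SG K (m + 1) S) (hm : 0 < m) {s s' : S} (h : Q.cs s = Q.cs s') : Q.idx hm s = Q.idx hm s' := by
  unfold SG.idx
  congr 1

/-- the boundary map on `S` -/
noncomputable def SG.kapS (Q : SG K (m + 1) S) (Qm : SG K m S') (hm : 0 < m) (s : S) : Qm.Om :=
  Qm.ln ⟨Q.col (Q.idx hm s) s, Q.idx_ne hm s⟩

theorem SG.kapS_eq (Q : SG K (m + 1) S) (Qm : SG K m S') (hm : 0 < m) {s s' : S} (a : S')
    (h : ∀ q, ∃ c : K, c ≠ 0 ∧ Q.col q s' = rs (Qm.φ a *ᵥ Q.col q s) c) : Q.kapS Qm hm s' = a • Q.kapS Qm hm s := by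
  have h1 : ∀ q, Q.col q s' ≠ 0 ↔ Q.col q s ≠ 0 := by
    intro q
    obtain ⟨c, hc, hq⟩ := h q
    rw [hq, not_iff_not]
    constructor
    · intro h0
      by_contra hne
      have h2 : Qm.φ a *ᵥ Q.col q s = 0 := by
        have h3 := congrArg (fun z => rs z c⁻¹) h0
        simp only [rs_rs, mul_inv_cancel₀ hc, rs_one] at h3
        rw [h3]
        unfold rs
        funext i
        simp
      exact Qm.mulVec_ne a hne h2
    · intro h0
      rw [h0, Matrix.mulVec_zero]
      unfold rs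
      funext i
      simp
  have h2 : Q.cs s' = Q.cs s := by
    ext q
    rw [Q.mem_cs, Q.mem_cs, h1]
  have h3 := Q.idx_eq hm h2
  unfold SG.kapS
  rw [SG.smul_ln, SG.ln_eq]
  obtain ⟨c, hc, hq⟩ := h (Q.idx hm s)
  refine ⟨c, ?_⟩
  show Q.col (Q.idx hm s') s' = rs (Qm.φ a *ᵥ Q.col (Q.idx hm s) s) c
  rw [h3, hq]

theorem SG.kapS_center (Q : SG K (m + 1) S) (Qm : SG K m S') (hm : 0 < m) (s : S) {z : S} (hz : z ∈ Subgroup.center S) :
    Q.kapS Qm hm (s * z) = Q.kapS Qm hm s := by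
  obtain ⟨c, hc, hc1, hc2⟩ := Q.center hm hz
  have h := Q.kapS_eq Qm hm (s := s) (s' := s * z) 1 fun q => by
    refine ⟨c, ?_, ?_⟩
    · rintro rfl
      rw [norm_zero] at hc1
      exact zero_ne_one hc1
    · rw [map_one, Matrix.one_mulVec]
      funext i
      show Q.φ (s * z) i.castSucc q = Q.φ s i.castSucc q * c
      rw [map_mul, hc2, mul_diagonal]
  rw [h, one_smul]

theorem SG.kapS_levi (Q : SG K (m + 1) S) (Qm : SG K m S') (hm : 0 < m) {a : S} {a' : S'}
    (h1 : ∀ i i' : Fin m, Q.φ a i.castSucc i'.castSucc = Qm.φ a' i i') (h2 : ∀ i : Fin m, Q.φ a i.castSucc (Fin.last m) = 0) (s : S) :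
    Q.kapS Qm hm (a * s) = a' • Q.kapS Qm hm s := by
  refine Q.kapS_eq Qm hm a' fun q => ⟨1, one_ne_zero, ?_⟩
  rw [rs_one]
  funext i
  show Q.φ (a * s) i.castSucc q = _
  rw [map_mul, Matrix.mul_apply, Fin.sum_univ_castSucc, h2, zero_mul, add_zero]
  unfold mulVec dotProduct
  exact Finset.sum_congr rfl fun i' _ => by rw [h1]; rfl

theorem SG.kapS_upper (Q : SG K (m + 1) S) (Qm : SG K m S') (hm : 0 < m) {a : S} {c : K} (hc : ∀ y, c * y = y * c)
    (h1 : ∀ i i' : Fin m, Q.φ a i.castSucc i'.castSucc = if i = i' then c else 0)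
    (h2 : ∀ i : Fin m, Q.φ a i.castSucc (Fin.last m) = 0) (s : S) :
    Q.kapS Qm hm (a * s) = Q.kapS Qm hm s := by
  have hc0 : c ≠ 0 := by
    rintro rfl
    have h3 := congrFun (congrFun (Q.mul_inv a) (Fin.castSucc ⟨0, hm⟩)) (Fin.castSucc ⟨0, hm⟩)
    rw [Matrix.mul_apply, Matrix.one_apply_eq, Fin.sum_univ_castSucc, h2, zero_mul, add_zero] at h3
    simp only [h1, ite_self, zero_mul, Finset.sum_const_zero] at h3
    exact zero_ne_one h3
  have h := Q.kapS_eq Qm hm (s := s) (s' := a * s) 1 fun q => by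
    refine ⟨c, hc0, ?_⟩
    rw [map_one, Matrix.one_mulVec]
    funext i
    show Q.φ (a * s) i.castSucc q = Q.φ s i.castSucc q * c
    rw [map_mul, Matrix.mul_apply, Fin.sum_univ_castSucc, h2, zero_mul, add_zero]
    simp only [h1, ite_mul, zero_mul, Finset.sum_ite_eq, Finset.mem_univ, if_true]
    exact hc _
  rw [h, one_smul]

theorem SG.measurable_kapS (Q : SG K (m + 1) S) (Qm : SG K m S') (hm : 0 < m) {D : Set Qm.Om} (hD : MeasurableSet D) :
    MeasurableSet[borel S] (Q.kapS Qm hm ⁻¹' D) := by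
  borelize S
  borelize (Fin m → K)
  let B : Set (Fin m → K) := Subtype.val '' (Qm.ln ⁻¹' D)
  have hB : MeasurableSet B := by
    have h0 : MeasurableSet {x : Fin m → K | x ≠ 0} := (isOpen_ne (x := (0 : Fin m → K))).measurableSet
    refine MeasurableSet.subtype_image h0 ?_
    have h1 := Qm.measurableSet.1 hD
    have e : (borel (NZ K m)) = (inferInstance : MeasurableSpace (NZ K m)) := (Subtype.borelSpace _).measurable_eq.symm
    rw [e] at h1
    exact h1
  have hcol : ∀ q, Measurable (Q.col q) := fun q => (Q.continuous_col q).measurable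
  have e : Q.kapS Qm hm ⁻¹' D = ⋃ q, ({s | Q.idx hm s = q} ∩ (Q.col q ⁻¹' B)) := by
    ext s
    simp only [Set.mem_preimage, Set.mem_iUnion, Set.mem_inter_iff, Set.mem_ofPred_eq]
    constructor
    · intro h
      exact ⟨Q.idx hm s, rfl, ⟨Q.col (Q.idx hm s) s, Q.idx_ne hm s⟩, h, rfl⟩
    · rintro ⟨q, rfl, x, hx, hxe⟩
      have : x = ⟨Q.col (Q.idx hm s) s, Q.idx_ne hm s⟩ := Subtype.ext hxe
      rw [this] at hx
      exact hx
  rw [e]
  refine MeasurableSet.iUnion fun q => MeasurableSet.inter ?_ (hcol q hB)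
  have hn : ∀ p, MeasurableSet {s | Q.col p s = 0} := fun p => hcol p (measurableSet_singleton 0)
  have e2 : {s | Q.idx hm s = q} = {s | Q.col q s = 0}ᶜ ∩ ⋂ p, ⋂ (_ : p < q), {s | Q.col p s = 0} := by
    ext s
    simp only [Set.mem_inter_iff, Set.mem_compl_iff, Set.mem_iInter, Set.mem_ofPred_eq]
    constructor
    · rintro rfl
      refine ⟨Q.idx_ne hm s, fun p hp => ?_⟩
      by_contra hne
      exact absurd (Finset.min'_le _ p (Q.mem_cs.2 hne)) (not_le.2 hp)
    · rintro ⟨h1, h2⟩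
      refine le_antisymm (Finset.min'_le _ q (Q.mem_cs.2 h1)) ?_
      by_contra hlt
      exact Q.idx_ne hm s (h2 _ (not_le.1 hlt))
  rw [e2]
  exact (hn q).compl.inter (MeasurableSet.iInter fun p => MeasurableSet.iInter fun _ => hn p)

end Pool.Agent.Helper42.TZ
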