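import Pool.Agent.Helper42.TZ.Gen

/-!
# Project TZ (MP_0f6f3f_an): the group generated by transvections

`Q.Eg`: the subgroup generated by the transvections. `SG.Eg_le`: it is generated by the transvections `1 + e f` and `1 + v e`, `e` one standard vector.
-/

set_option autoImplicit false
set_option linter.unusedSectionVars false

open Matrix Topology

namespace Pool.Agent.Helper42.TZ

variable {K : Type} [NormedDivisionRing K] [NormedAlgebra ℝ K] [FiniteDimensional ℝ K] {m : ℕ}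
variable {S : Type} [Group S] [TopologicalSpace S]

/-- the subgroup generated by the transvections -/
def SG.Eg (Q : SG K m S) : Subgroup S :=
  Subgroup.closure {s | ∃ v f : Fin m → K, f ⬝ᵥ v = 0 ∧ Q.φ s = 1 + vecMulVec v f}

theorem SG.tv_mem (Q : SG K m S) {s : S} {v f : Fin m → K} (h : f ⬝ᵥ v = 0) (hs : Q.φ s = 1 + vecMulVec v f) : s ∈ Q.Eg :=
  Subgroup.subset_closure ⟨v, f, h, hs⟩

/-- conjugation of a transvection -/
theorem SG.conj_tv (Q : SG K m S) {s : S} {v f : Fin m → K} (hs : Q.φ s = 1 + vecMulVec v f) (g : S) :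
    Q.φ (g * s * g⁻¹) = 1 + vecMulVec (Q.φ g *ᵥ v) (f ᵥ* Q.φ g⁻¹) := by
  rw [map_mul, map_mul, hs, Matrix.mul_add, Matrix.add_mul, Matrix.mul_one, Q.mul_inv, mul_vecMulVec, vecMulVec_mul]

theorem SG.Eg_le (Q : SG K m S) (p : Fin m) (N : Subgroup S)
    (h1 : ∀ (s : S) (f : Fin m → K), f p = 0 → Q.φ s = 1 + vecMulVec (Pi.single p 1) f → s ∈ N)
    (h2 : ∀ (s : S) (v : Fin m → K), v p = 0 → Q.φ s = 1 + vecMulVec v (Pi.single p 1) → s ∈ N) : Q.Eg ≤ N := by
  classical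
  -- vectors with nonzero coordinate
  have key : ∀ (s : S) (v f : Fin m → K), f ⬝ᵥ v = 0 → v p ≠ 0 → Q.φ s = 1 + vecMulVec v f → s ∈ N := by
    intro s v f hfv hv hs
    obtain ⟨w, hw⟩ : ∃ w : Fin m → K, w = rs v (v p)⁻¹ - Pi.single p 1 := ⟨_, rfl⟩
    have hwp : w p = 0 := by
      rw [hw]
      show v p * (v p)⁻¹ - (Pi.single p 1 : Fin m → K) p = 0
      rw [mul_inv_cancel₀ hv, Pi.single_eq_same, sub_self]
    obtain ⟨g, hg⟩ := Q.tv w (Pi.single p 1) (by rw [single_one_dotProduct, hwp])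
    have hgN : g ∈ N := h2 g w hwp hg
    have hge : Q.φ g *ᵥ Pi.single p 1 = rs v (v p)⁻¹ := by
      rw [hg, tv_mulVec, single_one_dotProduct, Pi.single_eq_same, rs_one, hw]
      abel
    have hgv : Q.φ g⁻¹ *ᵥ v = rs (Pi.single p 1) (v p) := by
      have e1 : Q.φ g⁻¹ *ᵥ (Q.φ g *ᵥ Pi.single p 1) = Pi.single p 1 := by
        rw [Matrix.mulVec_mulVec, Q.inv_mul, Matrix.one_mulVec]
      rw [hge, mulVec_rs] at e1
      rw [← e1, rs_rs, inv_mul_cancel₀ hv, rs_one]
    have h3 := Q.conj_tv hs g⁻¹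
    rw [hgv, vmv_rs, inv_inv] at h3
    have h4 : g⁻¹ * s * g ∈ N := by
      refine h1 _ (v p • (f ᵥ* Q.φ g)) ?_ h3
      rw [Pi.smul_apply, smul_eq_mul, ← dotProduct_single_one (f ᵥ* Q.φ g) p, ← Matrix.dotProduct_mulVec, hge, dot_rs, hfv,
        zero_mul, mul_zero]
    have h5 := N.mul_mem (N.mul_mem hgN h4) (N.inv_mem hgN)
    have e : g * (g⁻¹ * s * g) * g⁻¹ = s := by group
    rwa [e] at h5
  refine (Subgroup.closure_le N).2 ?_
  rintro s ⟨v, f, hfv, hs⟩
  show s ∈ N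
  by_cases hv : v p ≠ 0
  · exact key s v f hfv hv hs
  rw [not_not] at hv
  by_cases hv0 : v = 0
  · have h3 : s = 1 := by
      apply Q.inj
      rw [hs, map_one, hv0]
      have h3 : vecMulVec (0 : Fin m → K) f = 0 := by
        refine Matrix.ext fun i j => ?_
        rw [vecMulVec_apply, Pi.zero_apply, zero_mul]
        rfl
      rw [h3, add_zero]
    rw [h3]
    exact N.one_mem
  obtain ⟨i, hi⟩ : ∃ i, v i ≠ 0 := Function.ne_iff.1 hv0
  have hip : i ≠ p := by
    rintro rfl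
    exact hi hv
  obtain ⟨g, hg⟩ := Q.tv (Pi.single p 1) ((v i)⁻¹ • Pi.single i 1) (by
    rw [smul_dotProduct, single_one_dotProduct]
    have : (Pi.single p 1 : Fin m → K) i = 0 := Pi.single_eq_of_ne hip _
    rw [this, smul_zero])
  have hgN : g ∈ N := by
    refine h1 g _ ?_ hg
    have : (Pi.single i 1 : Fin m → K) p = 0 := Pi.single_eq_of_ne hip.symm _
    rw [Pi.smul_apply, this, smul_zero]
  have hgv : Q.φ g *ᵥ v = v + Pi.single p 1 := by
    rw [hg, tv_mulVec, smul_dotProduct, single_one_dotProduct, smul_eq_mul, inv_mul_cancel₀ hi, rs_one]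
  have h3 := Q.conj_tv hs g
  rw [hgv] at h3
  have h4 : g * s * g⁻¹ ∈ N := by
    refine key _ (v + Pi.single p 1) (f ᵥ* Q.φ g⁻¹) ?_ ?_ h3
    · rw [← hgv, ← Matrix.dotProduct_mulVec, Matrix.mulVec_mulVec, Q.inv_mul, Matrix.one_mulVec, hfv]
    · rw [Pi.add_apply, hv, Pi.single_eq_same, zero_add]
      exact one_ne_zero
  have h5 := N.mul_mem (N.mul_mem (N.inv_mem hgN) h4) hgN
  have e : g⁻¹ * (g * s * g⁻¹) * g = s := by group
  rwa [e] at h5

end Pool.Agent.Helper42.TZ
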